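import Mathlib

/-!
# Levels of characters: definitions, and facts on cyclotomic fields
-/

namespace Pool.Agent.Lib.MP_1aae89_al

open Polynomial

/-- `e^(2πi/n)`. -/
noncomputable def zeta (n : ℕ) : ℂ := Complex.exp (2 * Real.pi * Complex.I / n)

/-- `ℚ_n = ℚ(e^(2πi/n))`. -/
noncomputable def cycField (n : ℕ) : IntermediateField ℚ ℂ := IntermediateField.adjoin ℚ {zeta n}

/-- `ℚ(χ)`, the field generated by the values of `χ`. -/
noncomputable def charField {G : Type} (χ : G → ℂ) : IntermediateField ℚ ℂ :=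
  IntermediateField.adjoin ℚ (Set.range χ)

/-- The conductor: the least positive integer `n` with `ℚ(χ) ⊆ ℚ_n`. -/
noncomputable def conductor {G : Type} (χ : G → ℂ) : ℕ :=
  sInf {n : ℕ | 0 < n ∧ charField χ ≤ cycField n}

/-- The `p`-rationality level, the exponent of `p` in the conductor. -/
noncomputable def lev (p : ℕ) {G : Type} (χ : G → ℂ) : ℕ := (conductor χ).factorization p

theorem zeta_prim {n : ℕ} (hn : n ≠ 0) : IsPrimitiveRoot (zeta n) n :=
  Complex.isPrimitiveRoot_exp n hn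

theorem zeta_pow_div {a N : ℕ} (h : a ∣ N) (hN : N ≠ 0) : zeta N ^ (N / a) = zeta a := by
  obtain ⟨k, rfl⟩ := h
  have ha : a ≠ 0 := left_ne_zero_of_mul hN
  have hk : k ≠ 0 := right_ne_zero_of_mul hN
  rw [Nat.mul_div_cancel_left _ (Nat.pos_of_ne_zero ha)]
  unfold zeta
  rw [← Complex.exp_nat_mul]
  congr 1
  have ha' : (a : ℂ) ≠ 0 := by exact_mod_cast ha
  have hk' : (k : ℂ) ≠ 0 := by exact_mod_cast hk
  push_cast
  field_simp

theorem mem_adjoin_iff {K : Type*} [Field K] [Algebra ℚ K] {z : K} (hz : IsIntegral ℚ z) {x : K} :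
    x ∈ IntermediateField.adjoin ℚ {z} ↔ ∃ P : ℚ[X], aeval z P = x := by
  rw [← IntermediateField.mem_toSubalgebra,
    IntermediateField.adjoin_simple_toSubalgebra_of_isAlgebraic hz.isAlgebraic,
    Algebra.adjoin_singleton_eq_range_aeval]
  rfl

theorem zeta_integral {n : ℕ} (hn : n ≠ 0) : IsIntegral ℚ (zeta n) :=
  (zeta_prim hn).isIntegral (Nat.pos_of_ne_zero hn) |>.tower_top

theorem mem_cyc {n : ℕ} (hn : n ≠ 0) {x : ℂ} :
    x ∈ cycField n ↔ ∃ P : ℚ[X], aeval (zeta n) P = x := mem_adjoin_iff (zeta_integral hn)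

/-- Galois conjugation, in terms of polynomials. -/
theorem transfer {a b t : ℕ} (ha : a ≠ 0) (hb : b ≠ 0) (ht : t.Coprime (a.lcm b)) (P Q : ℚ[X])
    (h : aeval (zeta a) P = aeval (zeta b) Q) :
    aeval (zeta a ^ t) P = aeval (zeta b ^ t) Q := by
  set N := a.lcm b with hN
  have hN0 : N ≠ 0 := Nat.lcm_ne_zero ha hb
  have ea : zeta a = zeta N ^ (N / a) := (zeta_pow_div (Nat.dvd_lcm_left a b) hN0).symm
  have eb : zeta b = zeta N ^ (N / b) := (zeta_pow_div (Nat.dvd_lcm_right a b) hN0).symm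
  have hprim := zeta_prim hN0
  have hprim' : IsPrimitiveRoot (zeta N ^ t) N := hprim.pow_of_coprime t ht
  have hmin : minpoly ℚ (zeta N) = minpoly ℚ (zeta N ^ t) := by
    rw [← cyclotomic_eq_minpoly_rat hprim (Nat.pos_of_ne_zero hN0),
      ← cyclotomic_eq_minpoly_rat hprim' (Nat.pos_of_ne_zero hN0)]
  set F : ℚ[X] := P.comp (X ^ (N / a)) - Q.comp (X ^ (N / b)) with hF
  have h1 : aeval (zeta N) F = 0 := by
    rw [hF, map_sub, aeval_comp, aeval_comp, map_pow, map_pow, aeval_X, ← ea, ← eb, h, sub_self]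
  have h2 : minpoly ℚ (zeta N) ∣ F := minpoly.dvd ℚ _ h1
  rw [hmin] at h2
  have h3 : aeval (zeta N ^ t) F = 0 := by
    obtain ⟨R, hR⟩ := h2
    rw [hR, map_mul, minpoly.aeval, zero_mul]
  rw [hF, map_sub, aeval_comp, aeval_comp, map_pow, map_pow, aeval_X, sub_eq_zero] at h3
  rw [ea, eb, pow_right_comm, pow_right_comm (zeta N) (N / b) t]
  exact h3


theorem zeta_pow_congr {n : ℕ} (hn : n ≠ 0) {s t : ℕ} (h : s ≡ t [MOD n]) :
    zeta n ^ s = zeta n ^ t := by
  have h1 : zeta n ^ n = 1 := (zeta_prim hn).pow_eq_one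
  rw [← Nat.div_add_mod s n, ← Nat.div_add_mod t n, pow_add, pow_add, pow_mul, pow_mul, h1, one_pow,
    one_pow]
  rw [show s % n = t % n from h]

/-- `ℚ_c ∩ ℚ_n ⊆ ℚ_{gcd(c,n)}`. -/
theorem mem_gcd {c n : ℕ} (hc : c ≠ 0) (hn : n ≠ 0) {x : ℂ} (h1 : x ∈ cycField c)
    (h2 : x ∈ cycField n) : x ∈ cycField (c.gcd n) := by
  set d := c.gcd n with hd
  have hd0 : d ≠ 0 := Nat.gcd_ne_zero_left hc
  obtain ⟨P, hP⟩ := (mem_cyc hc).1 h1
  obtain ⟨Q, hQ⟩ := (mem_cyc hn).1 h2
  have hdc : d ∣ c := Nat.gcd_dvd_left c n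
  have hcN : zeta c ^ (c / d) = zeta d := zeta_pow_div hdc hc
  have : NeZero c := ⟨hc⟩
  have : IsCyclotomicExtension {c} ℚ (cycField c) := by
    have h3 : IsCyclotomicExtension {c} ℚ (Algebra.adjoin ℚ {zeta c}) :=
      (zeta_prim hc).adjoin_isCyclotomicExtension ℚ
    have h4 : Algebra.adjoin ℚ {zeta c} = (cycField c).toSubalgebra :=
      (IntermediateField.adjoin_simple_toSubalgebra_of_isAlgebraic
        (zeta_integral hc).isAlgebraic).symm
    have e : (Algebra.adjoin ℚ {zeta c} : Subalgebra ℚ ℂ) ≃ₐ[ℚ] (cycField c) :=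
      Subalgebra.equivOfEq _ _ h4
    exact IsCyclotomicExtension.equiv {c} ℚ _ e
  have : IsGalois ℚ (cycField c) := IsCyclotomicExtension.isGalois {c} ℚ _
  have : FiniteDimensional ℚ (cycField c) := IsCyclotomicExtension.finiteDimensional {c} ℚ _
  let z : cycField c := ⟨zeta c, IntermediateField.mem_adjoin_simple_self ℚ (zeta c)⟩
  have hz : ((z : cycField c) : ℂ) = zeta c := rfl
  have hzprim : IsPrimitiveRoot z c := by
    refine IsPrimitiveRoot.of_map_of_injective (f := (cycField c).val) ?_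
      (cycField c).val.injective
    exact zeta_prim hc
  let w : cycField c := z ^ (c / d)
  have hw : IsIntegral ℚ w := IsIntegral.of_finite ℚ w
  have hval : ∀ (y : cycField c) (R : ℚ[X]), ((aeval y R : cycField c) : ℂ) = aeval (y : ℂ) R :=
    fun y R => by
      have := Polynomial.aeval_algHom_apply (cycField c).val y R
      exact this.symm
  have key : aeval z P ∈ IntermediateField.adjoin ℚ {w} := by
    rw [← IsGalois.fixedField_fixingSubgroup (IntermediateField.adjoin ℚ {w}),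
      IntermediateField.mem_fixedField_iff]
    intro σ hσ
    rw [IntermediateField.mem_fixingSubgroup_iff] at hσ
    have hσw := hσ w (IntermediateField.mem_adjoin_simple_self ℚ w)
    have hσz : IsPrimitiveRoot (σ z) c := hzprim.map_of_injective σ.injective
    obtain ⟨t, -, htc, hzt⟩ := (hzprim.isPrimitiveRoot_iff).1 hσz
    have h3 : z ^ (t * (c / d)) = z ^ (1 * (c / d)) := by
      rw [one_mul, pow_mul, hzt, ← map_pow]; exact hσw
    have h4 : t * (c / d) ≡ 1 * (c / d) [MOD d * (c / d)] := by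
      rw [Nat.mul_div_cancel' hdc]
      have hmod : ∀ i : ℕ, z ^ i = z ^ (i % c) := fun i => by
        conv_lhs => rw [← Nat.div_add_mod i c, pow_add, pow_mul, hzprim.pow_eq_one, one_pow,
          one_mul]
      rw [hmod, hmod (1 * (c / d))] at h3
      exact hzprim.pow_inj (Nat.mod_lt _ (Nat.pos_of_ne_zero hc))
        (Nat.mod_lt _ (Nat.pos_of_ne_zero hc)) h3
    have h6 : t ≡ 1 [MOD d] := Nat.ModEq.mul_right_cancel'
      (Nat.div_ne_zero_iff_of_dvd hdc |>.2 ⟨hc, hd0⟩) h4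
    obtain ⟨t', ht1, ht2⟩ := Nat.chineseRemainder' h6
    have hcop : t'.Coprime (c.lcm n) := by
      have e1 : t'.Coprime c := by
        unfold Nat.Coprime
        rw [ht1.gcd_eq]; exact htc
      have e2 : t'.Coprime n := by
        unfold Nat.Coprime
        rw [ht2.gcd_eq]; exact Nat.gcd_one_left n
      exact Nat.Coprime.coprime_dvd_right (Nat.lcm_dvd_mul c n) (e1.mul_right e2)
    have h7 := transfer hc hn hcop P Q (hP.trans hQ.symm)
    rw [zeta_pow_congr hc ht1, zeta_pow_congr hn ht2, pow_one, hQ] at h7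
    apply Subtype.ext
    have h8 : σ (aeval z P) = aeval (z ^ t) P := by
      rw [hzt]
      exact (Polynomial.aeval_algHom_apply (σ : cycField c →ₐ[ℚ] cycField c) z P).symm
    rw [h8, hval, hval, hz, hP]
    push_cast
    exact h7
  obtain ⟨R, hR⟩ := (mem_adjoin_iff hw).1 key
  refine (mem_cyc hd0).2 ⟨R, ?_⟩
  rw [← hP, ← hcN]
  have h9 := congrArg (fun y : cycField c => (y : ℂ)) hR
  simp only [hval] at h9
  exact h9

theorem charField_le {G : Type} {χ : G → ℂ} {n : ℕ} :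
    charField χ ≤ cycField n ↔ ∀ g, χ g ∈ cycField n := by
  unfold charField
  rw [IntermediateField.adjoin_le_iff]
  constructor
  · intro h g
    exact h ⟨g, rfl⟩
  · rintro h _ ⟨g, rfl⟩
    exact h g

theorem conductor_spec {G : Type} {χ : G → ℂ} {n : ℕ} (hn : n ≠ 0) (h : ∀ g, χ g ∈ cycField n) :
    conductor χ ≠ 0 ∧ ∀ g, χ g ∈ cycField (conductor χ) := by
  have h1 : conductor χ ∈ {n : ℕ | 0 < n ∧ charField χ ≤ cycField n} :=
    Nat.sInf_mem ⟨n, Nat.pos_of_ne_zero hn, charField_le.2 h⟩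
  exact ⟨h1.1.ne', charField_le.1 h1.2⟩

theorem conductor_dvd {G : Type} {χ : G → ℂ} {n : ℕ} (hn : n ≠ 0) (h : ∀ g, χ g ∈ cycField n) :
    conductor χ ∣ n := by
  obtain ⟨h1, h2⟩ := conductor_spec hn h
  have h3 : conductor χ ≤ (conductor χ).gcd n := Nat.sInf_le
    ⟨Nat.gcd_pos_of_pos_left _ (Nat.pos_of_ne_zero h1), charField_le.2 fun g =>
      mem_gcd h1 hn (h2 g) (h g)⟩
  have h4 := Nat.gcd_dvd_left (conductor χ) n
  have h5 := Nat.le_of_dvd (Nat.pos_of_ne_zero h1) h4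
  have h6 : (conductor χ).gcd n = conductor χ := le_antisymm h5 h3
  rw [← h6]
  exact Nat.gcd_dvd_right _ _

theorem lev_le {G : Type} {χ : G → ℂ} {n : ℕ} (p : ℕ) (hn : n ≠ 0)
    (h : ∀ g, χ g ∈ cycField n) : lev p χ ≤ n.factorization p :=
  (Nat.factorization_le_iff_dvd (conductor_spec hn h).1 hn).2 (conductor_dvd hn h) p

end Pool.Agent.Lib.MP_1aae89_al
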