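import Pool.Agent.Lib.MP_1aae89_al.Defs

/-!
# Galois automorphisms and the level
-/

set_option autoImplicit false

open scoped ComplexConjugate

namespace Pool.Agent.Lib.MP1aae89

open Module MvPolynomial

/-! ### extension of automorphisms -/

section ext

variable {k Ω : Type*} [Field k] [Field Ω] [Algebra k Ω] [IsAlgClosed Ω]

theorem exists_ringEquiv {ι : Type*} {v : ι → Ω} (hv : IsTranscendenceBasis k v)
    (φ : MvPolynomial ι k ≃+* MvPolynomial ι k) :
    ∃ σ : Ω ≃+* Ω, ∀ p, σ (aeval v p) = aeval v (φ p) := by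
  have := IsAlgClosed.isAlgClosure_of_transcendence_basis v hv
  let e : Algebra.adjoin k (Set.range v) ≃+* Algebra.adjoin k (Set.range v) :=
    hv.1.aevalEquiv.symm.toRingEquiv.trans (φ.trans hv.1.aevalEquiv.toRingEquiv)
  refine ⟨IsAlgClosure.equivOfEquiv Ω Ω e, fun p => ?_⟩
  have h := IsAlgClosure.equivOfEquiv_algebraMap Ω Ω e (hv.1.aevalEquiv p)
  have h1 : algebraMap (Algebra.adjoin k (Set.range v)) Ω (hv.1.aevalEquiv p) = aeval v p :=
    hv.1.algebraMap_aevalEquiv p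
  have h2 : e (hv.1.aevalEquiv p) = hv.1.aevalEquiv (φ p) := by
    change hv.1.aevalEquiv (φ (hv.1.aevalEquiv.symm (hv.1.aevalEquiv p))) = _
    rw [AlgEquiv.symm_apply_apply]
  rw [h1, h2] at h
  rw [h]
  exact hv.1.algebraMap_aevalEquiv (φ p)

/-- Every automorphism of `k` extends to an algebraically closed extension. -/
theorem exists_extend (τ : k ≃+* k) :
    ∃ σ : Ω ≃+* Ω, ∀ x, σ (algebraMap k Ω x) = algebraMap k Ω (τ x) := by
  obtain ⟨s, hs⟩ := exists_isTranscendenceBasis k Ω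
  obtain ⟨σ, hσ⟩ := exists_ringEquiv hs (MvPolynomial.mapEquiv s τ)
  refine ⟨σ, fun x => ?_⟩
  have h := hσ (C x)
  rw [aeval_C] at h
  rw [h, mapEquiv_apply, map_C, aeval_C]
  rfl

end ext

/-! ### cyclotomic fields -/

/-- the root of unity `e^{2πi/n}` -/
noncomputable def ze (n : ℕ) : ℂ := Complex.exp (2 * Real.pi * Complex.I / n)

theorem prim (n : ℕ) (hn : 0 < n) : IsPrimitiveRoot (ze n) n :=
  Complex.isPrimitiveRoot_exp n hn.ne'

theorem ze_pow (a b : ℕ) (hb : 0 < b) (h : a ∣ b) : ze a = ze b ^ (b / a) := by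
  obtain ⟨c, rfl⟩ := h
  have ha : 0 < a := Nat.pos_of_mul_pos_right hb
  have hc : 0 < c := Nat.pos_of_mul_pos_left hb
  rw [Nat.mul_div_cancel_left _ ha, ze, ze, ← Complex.exp_nat_mul]
  congr 1
  have ha' : (a : ℂ) ≠ 0 := by exact_mod_cast ha.ne'
  have hc' : (c : ℂ) ≠ 0 := by exact_mod_cast hc.ne'
  push_cast
  field_simp

theorem ze_mem (n : ℕ) : ze n ∈ Qn n :=
  IntermediateField.mem_adjoin_simple_self ℚ (ze n)

theorem Qn_mono (a b : ℕ) (hb : 0 < b) (h : a ∣ b) : Qn a ≤ Qn b := by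
  unfold Qn
  rw [IntermediateField.adjoin_le_iff, Set.singleton_subset_iff]
  change ze a ∈ Qn b
  rw [ze_pow a b hb h]
  exact pow_mem (ze_mem b) _

theorem ze_int (n : ℕ) (hn : 0 < n) : IsIntegral ℚ (ze n) :=
  (prim n hn).isIntegral hn |>.tower_top

theorem root_mem (n : ℕ) (hn : 0 < n) {ξ : ℂ} (h : ξ ^ n = 1) : ξ ∈ Qn n := by
  have : NeZero n := ⟨hn.ne'⟩
  obtain ⟨i, -, rfl⟩ := (prim n hn).eq_pow_of_pow_eq_one h
  exact pow_mem (ze_mem n) i

theorem cyc (n : ℕ) [NeZero n] : IsCyclotomicExtension {n} ℚ (Qn n) := by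
  change IsCyclotomicExtension {n} ℚ (IntermediateField.adjoin ℚ {ze n}).toSubalgebra
  rw [IntermediateField.adjoin_simple_toSubalgebra_of_isAlgebraic
    (ze_int n (Nat.pos_of_neZero n)).isAlgebraic]
  exact (prim n (Nat.pos_of_neZero n)).adjoin_isCyclotomicExtension ℚ

/-- automorphisms of `ℂ` with given action on the roots of unity -/
theorem exists_aut (n : ℕ) (hn : 0 < n) (s : ℕ) (hs : s.Coprime n) :
    ∃ σ : ℂ →+* ℂ, ∀ ξ : ℂ, ξ ^ n = 1 → σ ξ = ξ ^ s := by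
  have : NeZero n := ⟨hn.ne'⟩
  have := cyc n
  have : NumberField (Qn n) :=
    { to_charZero := inferInstance
      to_finiteDimensional := IntermediateField.adjoin.finiteDimensional (ze_int n hn) }
  let τ := (IsCyclotomicExtension.Rat.galEquivZMod n (Qn n)).symm (ZMod.unitOfCoprime s hs)
  have hτ : ∀ x : Qn n, x ^ n = 1 → τ x = x ^ s := by
    intro x hx
    rw [IsCyclotomicExtension.Rat.galEquivZMod_apply_of_pow_eq n (Qn n) _ hx,
      MulEquiv.apply_symm_apply, ZMod.coe_unitOfCoprime, ZMod.val_natCast]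
    conv_rhs => rw [← Nat.mod_add_div s n, pow_add, pow_mul, hx, one_pow, mul_one]
  obtain ⟨σ, hσ⟩ := exists_extend (Ω := ℂ) τ.toRingEquiv
  refine ⟨σ.toRingHom, fun ξ hξ => ?_⟩
  have h1 : ξ ∈ Qn n := root_mem n hn hξ
  have h2 := hσ ⟨ξ, h1⟩
  have h3 : (τ ⟨ξ, h1⟩ : ℂ) = ξ ^ s := by
    rw [hτ ⟨ξ, h1⟩ (Subtype.ext hξ)]
    rfl
  exact h2.trans h3

/-- the elements of `ℚ_c` are fixed if `s ≡ 1` modulo `c` -/
theorem fixed (σ : ℂ →+* ℂ) (s n : ℕ) (hσ : ∀ ξ : ℂ, ξ ^ n = 1 → σ ξ = ξ ^ s) (c : ℕ)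
    (hc0 : 0 < c) (hc : c ∣ n) (hs : s ≡ 1 [MOD c]) {x : ℂ} (hx : x ∈ Qn c) : σ x = x := by
  unfold Qn at hx
  induction hx using IntermediateField.adjoin_induction with
  | mem x hx =>
    rw [Set.mem_singleton_iff] at hx
    change x = ze c at hx
    rw [hx]
    have h1 : ze c ^ n = 1 := by
      obtain ⟨d, rfl⟩ := hc
      rw [pow_mul, (prim c hc0).pow_eq_one, one_pow]
    rw [hσ _ h1]
    have h2 : s % c = 1 % c := hs
    have h3 := pow_mod_orderOf (ze c) s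
    have h4 := pow_mod_orderOf (ze c) 1
    rw [← (prim c hc0).eq_orderOf] at h3 h4
    rw [← h3, h2, h4, pow_one]
  | algebraMap x => exact map_ratCast σ x
  | add x y hx hy ihx ihy => rw [map_add, ihx, ihy]
  | mul x y hx hy ihx ihy => rw [map_mul, ihx, ihy]
  | inv x hx ihx => rw [map_inv₀, ihx]

/-- descent from `ℚ_c` to `ℚ_{c/p}` -/
theorem descend (σ : ℂ →+* ℂ) (s n : ℕ) (hσ : ∀ ξ : ℂ, ξ ^ n = 1 → σ ξ = ξ ^ s) (p c : ℕ)
    (hp : p.Prime) (hc0 : 0 < c) (hc : c ∣ n) (hpc : p ^ 2 ∣ c) (hs : s ≡ 1 [MOD c / p])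
    (hs' : ¬ s ≡ 1 [MOD c]) {x : ℂ} (hx : x ∈ Qn c) (hfix : σ x = x) : x ∈ Qn (c / p) := by
  have hpc' : p ∣ c := (dvd_pow_self p two_ne_zero).trans hpc
  obtain ⟨d, rfl⟩ := hpc'
  have hp0 := hp.pos
  have hd0 : 0 < d := Nat.pos_of_mul_pos_left hc0
  rw [Nat.mul_div_cancel_left _ hp0] at hs ⊢
  have hpd : p ∣ d := by
    rw [pow_two] at hpc
    exact Nat.dvd_of_mul_dvd_mul_left hp0 hpc
  set ζ := ze (p * d) with hζ
  have hprim : IsPrimitiveRoot ζ (p * d) := prim _ hc0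
  have hroot : ∀ ξ : ℂ, ξ ^ (p * d) = 1 → σ ξ = ξ ^ s := fun ξ hξ => hσ ξ (by
    obtain ⟨t, rfl⟩ := hc
    rw [pow_mul, hξ, one_pow])
  -- the root of unity `ω`
  have hs1 : 1 ≤ s := by
    rcases Nat.eq_zero_or_pos s with h | h
    · exfalso
      rw [h] at hs
      have h1 : d ∣ 1 := (Nat.modEq_zero_iff_dvd.mp hs.symm)
      have h2 : p ∣ 1 := hpd.trans h1
      exact hp.one_lt.ne' (Nat.dvd_one.mp h2)
    · exact h
  obtain ⟨t, ht⟩ := (Nat.modEq_iff_dvd' hs1).mp hs.symm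
  have hst : s = 1 + d * t := by omega
  set ω := ζ ^ (d * t) with hω
  have hωp : ω ^ p = 1 := by
    rw [hω, ← pow_mul]
    have : d * t * p = p * d * t := by ring
    rw [this, pow_mul, hprim.pow_eq_one, one_pow]
  have hω1 : ω ≠ 1 := by
    intro h
    apply hs'
    have h1 := (hprim.pow_eq_one_iff_dvd _).mp h
    rw [hst]
    exact (Nat.modEq_iff_dvd' (by omega)).mpr (by simpa using h1) |>.symm
  have hωprim : IsPrimitiveRoot ω p := by
    have := orderOf_eq_prime hωp hω1 (hp := ⟨hp⟩)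
    rw [← this]
    exact IsPrimitiveRoot.orderOf ω
  have hσω : σ ω = ω := by
    rw [hroot ω (by rw [pow_mul, hωp, one_pow])]
    obtain ⟨q, hq⟩ := hpd
    rw [hst, pow_add, pow_one, hq, mul_assoc, pow_mul, hωp, one_pow, mul_one]
  have hσζ : σ ζ = ζ * ω := by
    rw [hroot ζ hprim.pow_eq_one, hst, pow_add, pow_one]
  -- the polynomial
  have hx' : x ∈ Algebra.adjoin ℚ {ζ} := by
    have h1 : (Qn (p * d)).toSubalgebra = Algebra.adjoin ℚ {ζ} :=
      IntermediateField.adjoin_simple_toSubalgebra_of_isAlgebraic (ze_int _ hc0).isAlgebraic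
    rw [← h1]
    exact hx
  rw [Algebra.adjoin_singleton_eq_range_aeval] at hx'
  obtain ⟨P, hP⟩ := hx'
  have hall : ∀ i : ℕ, x = Polynomial.aeval (ζ * ω ^ i) P := by
    intro i
    induction i with
    | zero =>
      rw [pow_zero, mul_one]
      exact hP.symm
    | succ i ih =>
      have h1 : σ (Polynomial.aeval (ζ * ω ^ i) P) = Polynomial.aeval (σ (ζ * ω ^ i)) P := by
        have := Polynomial.aeval_algHom_apply (RingHom.toRatAlgHom σ) (ζ * ω ^ i) P
        exact this.symm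
      calc x = σ x := hfix.symm
        _ = σ (Polynomial.aeval (ζ * ω ^ i) P) := by rw [← ih]
        _ = Polynomial.aeval (ζ * ω ^ (i + 1)) P := by
          rw [h1, map_mul, map_pow, hσω, hσζ, mul_assoc, ← pow_succ']
  have hsum : (p : ℂ) * x = ∑ k ∈ Finset.range (P.natDegree + 1),
      (P.coeff k : ℂ) * ζ ^ k * ∑ i ∈ Finset.range p, (ω ^ k) ^ i := by
    have h1 : (p : ℂ) * x = ∑ i ∈ Finset.range p, Polynomial.aeval (ζ * ω ^ i) P := by
      rw [Finset.sum_congr rfl fun i _ => (hall i).symm, Finset.sum_const, Finset.card_range,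
        nsmul_eq_mul]
    rw [h1]
    simp only [Polynomial.aeval_eq_sum_range, Finset.mul_sum]
    rw [Finset.sum_comm]
    refine Finset.sum_congr rfl fun k _ => Finset.sum_congr rfl fun i _ => ?_
    rw [Algebra.smul_def, mul_pow, ← pow_mul, ← pow_mul, mul_comm i k]
    change (P.coeff k : ℂ) * _ = _
    ring
  have hterm : ∀ k, (P.coeff k : ℂ) * ζ ^ k * ∑ i ∈ Finset.range p, (ω ^ k) ^ i ∈
      Qn d := by
    intro k
    by_cases hk : p ∣ k
    · obtain ⟨l, rfl⟩ := hk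
      have h1 : ω ^ (p * l) = 1 := by rw [pow_mul, hωp, one_pow]
      have h2 : ζ ^ (p * l) = ze d ^ l := by
        rw [ze_pow d (p * d) hc0 (dvd_mul_left d p), Nat.mul_div_cancel _ hd0, ← pow_mul]
      rw [h1, h2]
      simp only [one_pow, Finset.sum_const, Finset.card_range, nsmul_eq_mul, mul_one]
      refine mul_mem (mul_mem ?_ (pow_mem (ze_mem d) _)) ?_
      · exact SubfieldClass.ratCast_mem _ _
      · exact natCast_mem _ _
    · have h1 : ∑ i ∈ Finset.range p, (ω ^ k) ^ i = 0 := by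
        have h2 : IsPrimitiveRoot (ω ^ k) p :=
          hωprim.pow_of_coprime k (Nat.Coprime.symm ((Nat.Prime.coprime_iff_not_dvd hp).mpr hk))
        exact h2.geom_sum_eq_zero hp.one_lt
      rw [h1, mul_zero]
      exact zero_mem _
  have h1 : (p : ℂ) * x ∈ Qn d := by
    rw [hsum]
    exact sum_mem fun k _ => hterm k
  have h2 : x = (p : ℂ)⁻¹ * (p * x) := by
    have : (p : ℂ) ≠ 0 := by exact_mod_cast hp0.ne'
    field_simp
  rw [h2]
  exact mul_mem (inv_mem (natCast_mem _ _)) h1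

/-! ### levels -/

section level

variable {G : Type*} {χ : G → ℂ}

theorem conductor_spec (h : conductor χ ≠ 0) :
    0 < conductor χ ∧ ∀ g, χ g ∈ Qn (conductor χ) := by
  have hne : {n : ℕ | 0 < n ∧ ∀ g, χ g ∈ Qn n}.Nonempty := by
    by_contra hne
    rw [Set.not_nonempty_iff_eq_empty] at hne
    apply h
    rw [conductor, hne, Nat.sInf_empty]
  exact Nat.sInf_mem hne

theorem conductor_le {n : ℕ} (hn : 0 < n) (h : ∀ g, χ g ∈ Qn n) :
    conductor χ ≤ n ∧ conductor χ ≠ 0 := by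
  have h1 : n ∈ {n : ℕ | 0 < n ∧ ∀ g, χ g ∈ Qn n} := ⟨hn, h⟩
  have h2 : conductor χ ≤ n := Nat.sInf_le h1
  have h3 : conductor χ ∈ {n : ℕ | 0 < n ∧ ∀ g, χ g ∈ Qn n} := Nat.sInf_mem ⟨n, h1⟩
  exact ⟨h2, h3.1.ne'⟩

theorem conductor_ne {p : ℕ} (h : 1 ≤ lev p χ) : conductor χ ≠ 0 := by
  intro h0
  rw [lev, h0, padicValNat_zero_right] at h
  omega

/-- the exponent `1 + m p ^ (b - 1) t`, `m` the part of `L` prime to `p` -/
def ex (p L b t : ℕ) : ℕ := 1 + ordCompl[p] L * p ^ (b - 1) * t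

variable {p : ℕ} (hp : p.Prime)
include hp

theorem ex_coprime {L b t : ℕ} (hb : 2 ≤ b) : (ex p L b t).Coprime L := by
  have h0 : (ex p L b t).Coprime (ordProj[p] L * ordCompl[p] L) := by
    refine Nat.Coprime.mul_right (Nat.Coprime.pow_right _ ?_) ?_
    · rw [Nat.coprime_comm, Nat.Prime.coprime_iff_not_dvd hp]
      intro h
      rw [ex, Nat.dvd_add_left] at h
      · exact hp.one_lt.ne' (Nat.dvd_one.mp h)
      · refine Dvd.dvd.mul_right (Dvd.dvd.mul_left ?_ _) _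
        exact dvd_pow_self p (by omega)
    · rw [ex, mul_assoc]
      exact (Nat.coprime_add_mul_left_left _ _ _).mpr (Nat.coprime_one_left _)
  rwa [Nat.ordProj_mul_ordCompl_eq_self L p] at h0

theorem ex_modEq {L b t c : ℕ} (hL : 0 < L) (hc : c ∣ L) (hcb : ¬ p ^ b ∣ c) (hb : 1 ≤ b) :
    ex p L b t ≡ 1 [MOD c] := by
  have hc0 : c ≠ 0 := by
    rintro rfl
    exact hL.ne' (Nat.eq_zero_of_zero_dvd hc)
  have h1 : c ∣ ordCompl[p] L * p ^ (b - 1) := by
    rw [← Nat.ordProj_mul_ordCompl_eq_self c p, mul_comm (ordCompl[p] L)]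
    refine mul_dvd_mul (pow_dvd_pow p ?_) (Nat.ordCompl_dvd_ordCompl_of_dvd hc p)
    by_contra h
    apply hcb
    exact (hp.pow_dvd_iff_le_factorization hc0).mpr (by omega)
  refine ((Nat.modEq_iff_dvd' (by rw [ex]; omega)).mpr ?_).symm
  rw [ex, Nat.add_sub_cancel_left]
  exact h1.mul_right _

theorem ex_not_modEq {L b c : ℕ} (hL : 0 < L) (hcb : p ^ b ∣ c) (hb : 1 ≤ b) :
    ¬ ex p L b 1 ≡ 1 [MOD c] := by
  intro h
  have h1 := (Nat.modEq_iff_dvd' (by rw [ex]; omega)).mp h.symm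
  rw [ex, Nat.add_sub_cancel_left, mul_one] at h1
  have h2 : p ^ b ∣ ordCompl[p] L * p ^ (b - 1) := hcb.trans h1
  have h3 : p ^ b = p * p ^ (b - 1) := by
    rw [← pow_succ']
    congr 1
    omega
  rw [h3] at h2
  have h4 := Nat.dvd_of_mul_dvd_mul_right (pow_pos hp.pos _) h2
  exact Nat.not_dvd_ordCompl hp hL.ne' h4

/-- small level: the values are fixed -/
theorem fixed_of_lev {L b t : ℕ} (hL : 0 < L) {σ : ℂ →+* ℂ}
    (hσ : ∀ ξ : ℂ, ξ ^ L = 1 → σ ξ = ξ ^ ex p L b t) (hb : 1 ≤ b) {c : ℕ} (hc0 : 0 < c)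
    (hc : c ∣ L) (hcb : ¬ p ^ b ∣ c) {x : ℂ} (hx : x ∈ Qn c) : σ x = x :=
  fixed σ _ L hσ c hc0 hc (ex_modEq hp hL hc hcb hb) hx

/-- exact level: some value is moved -/
theorem moved_of_lev {L b : ℕ} (hL : 0 < L) {σ : ℂ →+* ℂ}
    (hσ : ∀ ξ : ℂ, ξ ^ L = 1 → σ ξ = ξ ^ ex p L b 1) (hb : 2 ≤ b) (hlev : lev p χ = b)
    (hc : conductor χ ∣ L) : ∃ g, σ (χ g) ≠ χ g := by
  by_contra hall
  push Not at hall
  have hne : conductor χ ≠ 0 := conductor_ne (p := p) (by omega)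
  obtain ⟨hc0, hmem⟩ := conductor_spec hne
  have hfac : padicValNat p (conductor χ) = b := hlev
  have hfac' : (conductor χ).factorization p = b := by
    rw [Nat.factorization_def _ hp, hfac]
  have hpb : p ^ b ∣ conductor χ := (hp.pow_dvd_iff_le_factorization hne).mpr hfac'.ge
  have hp2 : p ^ 2 ∣ conductor χ := (pow_dvd_pow p hb).trans hpb
  have hp1 : p ∣ conductor χ := (dvd_pow_self p two_ne_zero).trans hp2
  have hnot : ¬ p ^ b ∣ conductor χ / p := by
    intro h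
    have h1 : p ^ (b + 1) ∣ conductor χ := by
      rw [pow_succ]
      exact (Nat.mul_dvd_mul_iff_right hp.pos).mpr h |>.trans (by rw [Nat.div_mul_cancel hp1])
    have := (hp.pow_dvd_iff_le_factorization hne).mp h1
    omega
  have h1 : ∀ g, χ g ∈ Qn (conductor χ / p) := fun g =>
    descend σ _ L hσ p (conductor χ) hp hc0 hc hp2
      (ex_modEq hp hL ((Nat.div_dvd_of_dvd hp1).trans hc) hnot (by omega))
      (ex_not_modEq hp hL hpb (by omega)) (hmem g) (hall g)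
  have h2 := (conductor_le (Nat.div_pos (Nat.le_of_dvd hc0 hp1) hp.pos) h1).1
  have h3 := Nat.div_lt_self hc0 hp.one_lt
  omega

/-- the level of a function with values in `ℚ_c` -/
theorem lev_le {c : ℕ} (hc0 : 0 < c) (h : ∀ g, χ g ∈ Qn c) (h1 : 1 ≤ padicValNat p c) :
    lev p χ ≤ padicValNat p c := by
  by_contra hlt
  push Not at hlt
  have hne : conductor χ ≠ 0 := conductor_ne (p := p) (by omega)
  have hc' := (conductor_spec hne).1
  have hL : 0 < c * conductor χ := Nat.mul_pos hc0 hc'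
  obtain ⟨σ, hσ⟩ := exists_aut (c * conductor χ) hL (ex p (c * conductor χ) (lev p χ) 1)
    (ex_coprime hp (by omega))
  obtain ⟨g, hg⟩ := moved_of_lev hp hL hσ (by omega) rfl (dvd_mul_left _ _)
  apply hg
  refine fixed_of_lev hp hL hσ (by omega) hc0 (dvd_mul_right _ _) ?_ (h g)
  intro h2
  have := (hp.pow_dvd_iff_le_factorization hc0.ne').mp h2
  rw [Nat.factorization_def _ hp] at this
  omega

end level

end Pool.Agent.Lib.MP1aae89
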