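import Pool.Agent.Lib.MP_1aae89_al.BF.PStep

/-!
# Induced class functions and their restriction to a `p`-subgroup
-/

namespace Pool.Agent.Lib.MP_1aae89_al

open Finset

open Classical in
/-- The function on `G` induced from the function `θ` on the subgroup `H`:
`θ^G(g) = |H|⁻¹ ∑_{x ∈ G} θ°(x⁻¹ g x)`, `θ°` being `θ` on `H` and zero outside. -/
noncomputable def ind {G : Type} [Group G] [Fintype G] (H : Subgroup G) (θ : H → ℂ) (g : G) : ℂ :=
  (Nat.card H : ℂ)⁻¹ * ∑ x : G, if h : x⁻¹ * g * x ∈ H then θ ⟨x⁻¹ * g * x, h⟩ else 0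

/-- Weighted orbit counting. -/
theorem orb {Γ X : Type} [Group Γ] [Fintype Γ] [MulAction Γ X] [Fintype X] (F : X → ℤ)
    (hF : ∀ (γ : Γ) (x : X), F (γ • x) = F x) :
    (Nat.card Γ : ℤ) ∣ ∑ x, (Nat.card (MulAction.stabilizer Γ x) : ℤ) * F x := by
  classical
  let Ω := MulAction.orbitRel.Quotient Γ X
  have h0 : ∀ x ∈ (univ : Finset X), (Quotient.mk'' x : Ω) ∈ (univ : Finset Ω) :=
    fun _ _ => mem_univ _
  rw [← sum_fiberwise_of_maps_to h0]
  refine Finset.dvd_sum fun q _ => ?_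
  obtain ⟨y, rfl⟩ := Quotient.exists_rep q
  have h1 : ∀ x ∈ univ.filter (fun x : X => (Quotient.mk'' x : Ω) = ⟦y⟧),
      (Nat.card (MulAction.stabilizer Γ x) : ℤ) * F x =
        (Nat.card (MulAction.stabilizer Γ y) : ℤ) * F y := by
    intro x hx
    rw [mem_filter] at hx
    have h2 : (MulAction.orbitRel Γ X).r x y := Quotient.exact hx.2
    obtain ⟨γ, rfl⟩ := h2
    rw [hF]
    congr 2
    exact Nat.card_congr (MulAction.stabilizerEquivStabilizer rfl).toEquiv.symm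
  rw [sum_congr rfl h1, sum_const]
  have h3 : #(univ.filter (fun x : X => (Quotient.mk'' x : Ω) = ⟦y⟧)) =
      Fintype.card (MulAction.orbit Γ y) := by
    rw [Fintype.card_subtype]
    congr 1
    ext x
    simp only [mem_filter, mem_univ, true_and]
    exact ⟨fun h => Quotient.exact h, fun h => Quotient.sound h⟩
  rw [h3, nsmul_eq_mul, ← mul_assoc]
  have h4 := MulAction.card_orbit_mul_card_stabilizer_eq_card_group Γ y
  apply Dvd.dvd.mul_right
  rw [Nat.card_eq_fintype_card, Nat.card_eq_fintype_card, ← h4]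
  push_cast
  exact dvd_refl _

/-- The action of `A × B` on `G` by `(a, b) • g = a g b⁻¹`. -/
@[reducible] def dcAct {G : Type} [Group G] (A B : Subgroup G) : MulAction (A × B) G where
  smul γ g := (γ.1 : G) * g * (γ.2 : G)⁻¹
  one_smul g := by
    show ((1 : A) : G) * g * ((1 : B) : G)⁻¹ = g
    simp
  mul_smul γ δ g := by
    show ((γ.1 * δ.1 : A) : G) * g * ((γ.2 * δ.2 : B) : G)⁻¹ =
      (γ.1 : G) * ((δ.1 : G) * g * (δ.2 : G)⁻¹) * (γ.2 : G)⁻¹
    push_cast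
    group

section

variable {G : Type} [Group G] [Fintype G] (P H : Subgroup G)

/-- `{x ∈ P : g⁻¹ x g ∈ H}`. -/
def Pg (g : G) : Subgroup P := H.comap ((MulAut.conj g⁻¹).toMonoidHom.comp P.subtype)

omit [Fintype G] in
theorem mem_Pg {g : G} {x : P} : x ∈ Pg P H g ↔ g⁻¹ * x * g ∈ H := by
  unfold Pg
  simp

/-- Conjugation `P_g → H`. -/
def cg (g : G) : Pg P H g →* H :=
  MonoidHom.mk' (fun x => ⟨g⁻¹ * (x : P) * g, (mem_Pg P H).1 x.2⟩) fun x y => by
    apply Subtype.ext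
    show g⁻¹ * (((x : P) : G) * ((y : P) : G)) * g = (g⁻¹ * (x : P) * g) * (g⁻¹ * (y : P) * g)
    group

omit [Fintype G] in
theorem card_stab (g : G) :
    Nat.card (@MulAction.stabilizer (P × H) G _ (dcAct P H) g) = Nat.card (Pg P H g) := by
  let _ := dcAct P H
  refine Nat.card_congr ⟨fun γ => ⟨γ.1.1, ?_⟩, fun x => ⟨(x.1, ⟨g⁻¹ * (x : P) * g,
    (mem_Pg P H).1 x.2⟩), ?_⟩, ?_, ?_⟩
  · have h1 : (γ.1.1 : G) * g * (γ.1.2 : G)⁻¹ = g := γ.2
    rw [mem_Pg]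
    have h2 : (γ.1.2 : G) = g⁻¹ * γ.1.1 * g := by
      have h3 : (γ.1.1 : G) * g = g * γ.1.2 := by
        rw [← mul_inv_eq_iff_eq_mul]; exact h1
      rw [mul_assoc, h3, inv_mul_cancel_left]
    rw [← h2]
    exact γ.1.2.2
  · show (x.1 : G) * g * (g⁻¹ * (x : P) * g)⁻¹ = g
    group
  · intro γ
    apply Subtype.ext
    have h1 : (γ.1.1 : G) * g * (γ.1.2 : G)⁻¹ = g := γ.2
    have h2 : (γ.1.2 : G) = g⁻¹ * γ.1.1 * g := by
      have h3 : (γ.1.1 : G) * g = g * γ.1.2 := by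
        rw [← mul_inv_eq_iff_eq_mul]; exact h1
      rw [mul_assoc, h3, inv_mul_cancel_left]
    exact Prod.ext rfl (Subtype.ext h2.symm)
  · intro x
    rfl

variable (θ : H → ℂ)

open Classical in
/-- `∑_{x ∈ P, g⁻¹ x g ∈ H} θ(g⁻¹ x g) μ(x)⁻¹`. -/
noncomputable def sg (g : G) (μ : Lin P) : ℂ :=
  ∑ x : P, if h : g⁻¹ * x * g ∈ H then θ ⟨g⁻¹ * x * g, h⟩ * (((μ x)⁻¹ : ℂˣ) : ℂ) else 0

/-- The restriction of a linear character. -/
def resL {Q : Type} [Group Q] (R : Subgroup Q) (μ : Lin Q) : Lin R :=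
  ((μ : Q →* ℂˣ).comp R.subtype : R →* ℂˣ)

theorem resL_apply {Q : Type} [Group Q] (R : Subgroup Q) (μ : Lin Q) (r : R) :
    resL R μ r = μ r := rfl

open Classical in
theorem sg_eq (g : G) (μ : Lin P) : sg P H θ g μ =
    ∑ x : Pg P H g, θ (cg P H g x) * (((resL (Pg P H g) μ x)⁻¹ : ℂˣ) : ℂ) := by
  unfold sg
  rw [← sum_filter_add_sum_filter_not univ (fun x : P => g⁻¹ * (x : G) * g ∈ H)]
  rw [sum_eq_zero (s := univ.filter fun x : P => ¬ (g⁻¹ * (x : G) * g ∈ H))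
    (fun x hx => dif_neg (mem_filter.1 hx).2), add_zero]
  rw [sum_subtype (p := fun x => x ∈ Pg P H g) _ (fun x => by rw [mem_filter, mem_Pg]; simp)]
  refine sum_congr rfl fun x _ => ?_
  rw [dif_pos ((mem_Pg P H).1 x.2)]
  rfl

theorem exists_T {θ : H → ℂ} (hθ : IsCharacter θ) (g : G) (μ : Lin P) :
    ∃ k : ℕ, sg P H θ g μ = Nat.card (Pg P H g) * k := by
  classical
  refine ⟨mlt (fun x : Pg P H g => θ (cg P H g x)) (resL (Pg P H g) μ), ?_⟩
  rw [mlt_spec (hθ.comp (cg P H g)), sg_eq, ← mul_assoc, Nat.card_eq_fintype_card,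
    mul_inv_cancel₀ (by exact_mod_cast Fintype.card_ne_zero), one_mul]

open Classical in
/-- The multiplicity `T(g, μ)`. -/
noncomputable def Tg (g : G) (μ : Lin P) : ℕ :=
  if h : ∃ k : ℕ, sg P H θ g μ = Nat.card (Pg P H g) * k then h.choose else 0

theorem Tg_spec {θ : H → ℂ} (hθ : IsCharacter θ) (g : G) (μ : Lin P) :
    sg P H θ g μ = Nat.card (Pg P H g) * Tg P H θ g μ := by
  have h1 := exists_T P H hθ g μ
  unfold Tg
  rw [dif_pos h1]
  exact h1.choose_spec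

theorem Tg_congr {g g' : G} {μ μ' : Lin P} (h1 : sg P H θ g μ = sg P H θ g' μ')
    (h2 : Nat.card (Pg P H g) = Nat.card (Pg P H g')) : Tg P H θ g μ = Tg P H θ g' μ' := by
  unfold Tg
  rw [h1, h2]

/-- Conjugation by an element of `P`, as a permutation of `P`. -/
def conjE (z : P) : P ≃ P := (MulAut.conj z⁻¹).toEquiv

omit [Fintype G] in
theorem conjE_apply (z x : P) : conjE P z x = z⁻¹ * x * z := by
  show z⁻¹ * x * z⁻¹⁻¹ = _
  rw [inv_inv]

omit [Fintype G] in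
theorem mem_iff (z : P) (h : H) (g : G) (x : P) :
    ((z : G) * g * (h : G)⁻¹)⁻¹ * x * ((z : G) * g * (h : G)⁻¹) ∈ H ↔
      g⁻¹ * ((z⁻¹ * x * z : P) : G) * g ∈ H := by
  have h1 : ((z : G) * g * (h : G)⁻¹)⁻¹ * x * ((z : G) * g * (h : G)⁻¹) =
      h * (g⁻¹ * ((z⁻¹ * x * z : P) : G) * g) * (h : G)⁻¹ := by
    push_cast
    group
  rw [h1, Subgroup.mul_mem_cancel_right _ (H.inv_mem h.2), Subgroup.mul_mem_cancel_left _ h.2]

omit [Fintype G] in
theorem card_Pg_inv (z : P) (h : H) (g : G) :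
    Nat.card (Pg P H ((z : G) * g * (h : G)⁻¹)) = Nat.card (Pg P H g) := by
  refine Nat.card_congr ((conjE P z).subtypeEquiv fun x => ?_)
  rw [mem_Pg, mem_Pg, conjE_apply, mem_iff]

theorem sg_inv {θ : H → ℂ} (hθ : IsCharacter θ) (z : P) (h : H) (g : G) (μ : Lin P) :
    sg P H θ ((z : G) * g * (h : G)⁻¹) μ = sg P H θ g μ := by
  classical
  unfold sg
  refine Fintype.sum_equiv (conjE P z) _ _ fun x => ?_
  rw [conjE_apply]
  by_cases hx : g⁻¹ * ((z⁻¹ * x * z : P) : G) * g ∈ H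
  · have hx' := (mem_iff P H z h g x).2 hx
    rw [dif_pos hx, dif_pos hx']
    congr 1
    · have h1 : (⟨_, hx'⟩ : H) = (h⁻¹)⁻¹ * ⟨_, hx⟩ * h⁻¹ := by
        apply Subtype.ext
        show ((z : G) * g * (h : G)⁻¹)⁻¹ * x * ((z : G) * g * (h : G)⁻¹) =
          ((h : G)⁻¹)⁻¹ * (g⁻¹ * ((z⁻¹ * x * z : P) : G) * g) * (h : G)⁻¹
        push_cast
        group
      rw [h1, hθ.conj]
    · congr 2
      rw [map_mul, map_mul, map_inv, mul_comm, mul_inv_cancel_left]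
  · have hx' := fun h' => hx ((mem_iff P H z h g x).1 h')
    rw [dif_neg hx, dif_neg hx']

theorem Tg_inv {θ : H → ℂ} (hθ : IsCharacter θ) (z : P) (h : H) (g : G) (μ : Lin P) :
    Tg P H θ ((z : G) * g * (h : G)⁻¹) μ = Tg P H θ g μ :=
  Tg_congr P H θ (sg_inv P H hθ z h g μ) (card_Pg_inv P H z h g)

/-- The restriction of the induced function to `P`. -/
theorem sum_ind {θ : H → ℂ} (hθ : IsCharacter θ) (μ : Lin P) [Fintype P] :
    (Nat.card H : ℂ) * ∑ x : P, ind H θ x * (((μ x)⁻¹ : ℂˣ) : ℂ) =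
      ∑ g : G, (Nat.card (Pg P H g) : ℂ) * (Tg P H θ g μ : ℂ) := by
  classical
  have h0 : (Nat.card H : ℂ) ≠ 0 := by exact_mod_cast Nat.card_pos.ne'
  have h1 : ∀ g : G, (Nat.card (Pg P H g) : ℂ) * (Tg P H θ g μ : ℂ) = sg P H θ g μ :=
    fun g => (Tg_spec P H hθ g μ).symm
  rw [sum_congr rfl fun g _ => h1 g]
  unfold ind sg
  rw [sum_comm, mul_sum]
  refine sum_congr (by ext; simp) fun x _ => ?_
  rw [mul_assoc, ← mul_assoc (Nat.card H : ℂ), mul_inv_cancel₀ h0, one_mul, sum_mul]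
  refine sum_congr rfl fun g _ => ?_
  split_ifs
  · rfl
  · rw [zero_mul]

/-- The multiplicities of the induced function are natural numbers. -/
theorem ind_nat {θ : H → ℂ} (hθ : IsCharacter θ) (μ : Lin P) [Fintype P] :
    ∃ k : ℕ, (Fintype.card P : ℂ)⁻¹ * ∑ x : P, ind H θ x * (((μ x)⁻¹ : ℂˣ) : ℂ) = k := by
  classical
  have h1 := sum_ind P H hθ μ
  let _ := dcAct P H
  have h2 := orb (Γ := P × H) (X := G) (fun g => (Tg P H θ g μ : ℤ)) fun γ g => by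
    exact_mod_cast Tg_inv P H hθ γ.1 γ.2 g μ
  rw [Nat.card_prod] at h2
  simp only [card_stab] at h2
  have h3 : (Nat.card P * Nat.card H) ∣ ∑ g : G, Nat.card (Pg P H g) * Tg P H θ g μ := by
    exact_mod_cast h2
  obtain ⟨k, hk⟩ := h3
  refine ⟨k, ?_⟩
  have h4 : (Nat.card H : ℂ) ≠ 0 := by exact_mod_cast Nat.card_pos.ne'
  have h5 : (Fintype.card P : ℂ) ≠ 0 := by exact_mod_cast Fintype.card_ne_zero
  have h6 : (∑ g : G, (Nat.card (Pg P H g) : ℂ) * (Tg P H θ g μ : ℂ)) =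
      (Nat.card P * Nat.card H : ℂ) * k := by exact_mod_cast hk
  rw [h6, Nat.card_eq_fintype_card (α := P)] at h1
  have h7 : ∑ x : P, ind H θ x * (((μ x)⁻¹ : ℂˣ) : ℂ) = (Fintype.card P : ℂ) * k := by
    apply mul_left_cancel₀ h4
    rw [h1]; ring
  rw [h7, ← mul_assoc, inv_mul_cancel₀ h5, one_mul]

end

end Pool.Agent.Lib.MP_1aae89_al
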