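import Pool.Agent.Lib.MP_1aae89_al.Ind

section
/-!
# The counting argument
-/
namespace Pool.Agent.Lib.MP_1aae89_al

open Finset

theorem mlt_spec' {P : Type} [Group P] [Fintype P] {χ : P → ℂ} {μ : Lin P}
    (h : ∃ k : ℕ, (Fintype.card P : ℂ)⁻¹ * ∑ x, χ x * (((μ x)⁻¹ : ℂˣ) : ℂ) = k) :
    ((mlt χ μ : ℕ) : ℂ) = (Fintype.card P : ℂ)⁻¹ * ∑ x, χ x * (((μ x)⁻¹ : ℂˣ) : ℂ) := by
  unfold mlt
  rw [dif_pos h]
  exact h.choose_spec.symm

section

variable {G : Type} [Group G] [Fintype G] (P H : Subgroup G) {p : ℕ} [hp : Fact p.Prime] {f : ℕ}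

/-- The elements `g` with `P_g ≠ P` contribute zero. -/
theorem dvd_t (hPc : Nat.card P = p ^ f) (θ : H → ℂ) {g : G} (hg : Pg P H g ≠ ⊤) {a : ℕ}
    (ha : 2 ≤ a) (lam : Lin P) : p ∣ ∑ ω ∈ Om P p (a - 1), Tg P H θ g (lam * ω) := by
  classical
  obtain ⟨ε, h1, h2, h3⟩ := exists_eps hPc (Pg P H g) hg
  refine dvd_sum _ (fun ω => ω * ε) ?_ ?_ _ ?_ ?_
  · intro ω hω
    rw [mem_Om] at hω ⊢
    rw [mul_pow, hω, one_mul]
    have h4 : p ^ (a - 1) = p * p ^ (a - 2) := by rw [← pow_succ']; congr 1; omega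
    rw [h4, pow_mul, h2, one_pow]
  · intro ω _
    have h4 : ∀ k, (fun ω => ω * ε)^[k] ω = ω * ε ^ k := by
      intro k
      induction k with
      | zero => simp
      | succ k ih => rw [Function.iterate_succ_apply', ih, pow_succ, mul_assoc]
    rw [h4, h2, mul_one]
  · intro ω _
    apply Tg_congr _ _ _ _ rfl
    rw [sg_eq, sg_eq]
    refine sum_congr rfl fun x _ => ?_
    congr 3
    rw [resL_apply, resL_apply, Lin.mul_apply, Lin.mul_apply, Lin.mul_apply, h3 x x.2, mul_one]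
  · intro ω _ h
    exact h1 (mul_eq_left.1 h)

/-- Conjugation `P → H`. -/
def cT {g : G} (h : ∀ x : P, g⁻¹ * x * g ∈ H) : P →* H :=
  MonoidHom.mk' (fun x => ⟨g⁻¹ * x * g, h x⟩) fun x y => by
    apply Subtype.ext
    show g⁻¹ * ((x : G) * (y : G)) * g = (g⁻¹ * x * g) * (g⁻¹ * y * g)
    group

omit [Fintype G] in
theorem Pg_eq_top {g : G} (h : ∀ x : P, g⁻¹ * x * g ∈ H) : Pg P H g = ⊤ :=
  (Subgroup.eq_top_iff' _).2 fun x => (mem_Pg P H).2 (h x)

/-- The pull back of a linear character. -/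
def pb {A B : Type} [Group A] [Group B] (c : A →* B) (β : Lin B) : Lin A :=
  ((β : B →* ℂˣ).comp c : A →* ℂˣ)

theorem pb_apply {A B : Type} [Group A] [Group B] (c : A →* B) (β : Lin B) (x : A) :
    pb c β x = β (c x) := rfl

open Classical in
theorem Tg_top {g : G} (h : ∀ x : P, g⁻¹ * x * g ∈ H) {α : H → ℂ} (hα : IsCharacter α)
    (β : Lin H) (μ : Lin P) :
    Tg P H (fun x => α x * (β x : ℂ)) g μ =
      mlt (fun x : P => α (cT P H h x)) (μ * (pb (cT P H h) β)⁻¹) := by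
  have hθ : IsCharacter (fun x => α x * (β x : ℂ)) := hα.twist β
  have h1 := Tg_spec P H hθ g μ
  rw [Pg_eq_top P H h, Subgroup.card_top] at h1
  have h2 := mlt_spec (hα.comp (cT P H h)) (μ * (pb (cT P H h) β)⁻¹)
  have h3 : (Fintype.card P : ℂ) ≠ 0 := by exact_mod_cast Fintype.card_ne_zero
  rw [Nat.card_eq_fintype_card] at h1
  have h4 : sg P H (fun x => α x * (β x : ℂ)) g μ =
      ∑ x : P, α (cT P H h x) * ((((μ * (pb (cT P H h) β)⁻¹) x)⁻¹ : ℂˣ) : ℂ) := by
    unfold sg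
    refine sum_congr rfl fun x _ => ?_
    rw [dif_pos (h x), Lin.mul_apply, Lin.inv_apply, mul_inv, inv_inv, Units.val_mul, pb_apply]
    have e1 : cT P H h x = ⟨g⁻¹ * x * g, h x⟩ := rfl
    rw [e1]
    ring
  rw [h4] at h1
  have h5 : (Fintype.card P : ℂ) * (Tg P H (fun x => α x * (β x : ℂ)) g μ : ℂ) =
      (Fintype.card P : ℂ) *
        ((mlt (fun x : P => α (cT P H h x)) (μ * (pb (cT P H h) β)⁻¹) : ℕ) : ℂ) := by
    rw [h2, ← mul_assoc, mul_inv_cancel₀ h3, one_mul, ← h1]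
  exact_mod_cast mul_left_cancel₀ h3 h5

/-- The elements counted modulo `p`. -/
def YY (β : Lin H) (lam : Lin P) (q : ℕ) (g : G) : Prop :=
  ∀ x : P, ∃ h : g⁻¹ * x * g ∈ H, β ⟨g⁻¹ * x * g, h⟩ ^ q = lam x ^ q

open Classical in
theorem t_modEq (hPc : Nat.card P = p ^ f) {α : H → ℂ} (hα : IsCharacter α) {k : ℕ}
    (hk : α 1 = k) (β : Lin H) {a : ℕ} (ha : 2 ≤ a)
    (hαgal : ∀ b, a ≤ b → ∀ x : H, x ^ p ^ f = 1 → α (x ^ (1 + p ^ (b - 1))) = α x)
    (lam : Lin P) (g : G) :
    (p : ℤ) ∣ ((∑ ω ∈ Om P p (a - 1), Tg P H (fun x => α x * (β x : ℂ)) g (lam * ω) : ℕ) : ℤ) -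
      (if YY P H β lam (p ^ (a - 1)) g then 1 else 0) * k := by
  by_cases htop : Pg P H g = ⊤
  · have h : ∀ x : P, g⁻¹ * x * g ∈ H := fun x => (mem_Pg P H).1 (by
      rw [htop]; exact Subgroup.mem_top x)
    set ν : Lin P := lam * (pb (cT P H h) β)⁻¹ with hν
    have h1 : ∀ ω : Lin P, Tg P H (fun x => α x * (β x : ℂ)) g (lam * ω) =
        mlt (fun x : P => α (cT P H h x)) (ν * ω) := by
      intro ω
      rw [Tg_top P H h hα, hν]
      congr 1
      exact mul_right_comm _ _ _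
    have hgal : ∀ b, a ≤ b → ∀ x : P, α (cT P H h (x ^ (1 + p ^ (b - 1)))) =
        α (cT P H h x) := by
      intro b hb x
      rw [map_pow]
      apply hαgal b hb
      rw [← map_pow, ← hPc, pow_card_eq_one', map_one]
    have hY : YY P H β lam (p ^ (a - 1)) g ↔ ν ^ (p ^ (a - 1)) = 1 := by
      have e1 : ν ^ (p ^ (a - 1)) = 1 ↔ lam ^ (p ^ (a - 1)) = (pb (cT P H h) β) ^ (p ^ (a - 1)) := by
        rw [hν, mul_pow, inv_pow, mul_inv_eq_one]
      rw [e1]
      constructor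
      · intro hy
        apply Lin.ext
        intro x
        obtain ⟨h', hx⟩ := hy x
        rw [Lin.pow_apply, Lin.pow_apply, ← hx]
        rfl
      · intro he x
        refine ⟨h x, ?_⟩
        have := congrArg (fun η : Lin P => η x) he
        simp only [Lin.pow_apply] at this
        rw [this]
        rfl
    rw [sum_congr rfl fun ω _ => h1 ω]
    by_cases hy : YY P H β lam (p ^ (a - 1)) g
    · rw [if_pos hy, one_mul]
      have hν1 := hY.1 hy
      have h2 : ∑ ω ∈ Om P p (a - 1), mlt (fun x : P => α (cT P H h x)) (ν * ω) =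
          ∑ ω ∈ Om P p (a - 1), mlt (fun x : P => α (cT P H h x)) ω := by
        refine sum_nbij' (fun ω => ν * ω) (fun ω => ν⁻¹ * ω) ?_ ?_ ?_ ?_ ?_
        · intro ω hω
          rw [mem_Om] at hω ⊢
          rw [mul_pow, hω, hν1, one_mul]
        · intro ω hω
          rw [mem_Om] at hω ⊢
          rw [mul_pow, hω, inv_pow, hν1, inv_one, one_mul]
        · intro ω _; exact inv_mul_cancel_left ν ω
        · intro ω _; exact mul_inv_cancel_left ν ω
        · intro ω _; rfl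
      rw [h2]
      have h3 := sum_Om (χ := fun x : P => α (cT P H h x)) hPc ha hgal f
      rw [Om_eq_univ hPc (by omega)] at h3
      have hk' : α (cT P H h 1) = k := by rw [map_one, hk]
      have h4 := deg f P hPc (fun x : P => α (cT P H h x)) (hα.comp (cT P H h)) k hk'
      exact (Nat.modEq_iff_dvd.1 (h4.symm.trans h3))
    · rw [if_neg hy, zero_mul, sub_zero]
      have h2 := dvd_coset (χ := fun x : P => α (cT P H h x)) hPc ha hgal (ν := ν)
        (fun h0 => hy (hY.2 h0))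
      exact_mod_cast h2
  · have hy : ¬ YY P H β lam (p ^ (a - 1)) g := by
      intro hy
      exact htop (Pg_eq_top P H fun x => (hy x).1)
    rw [if_neg hy, zero_mul, sub_zero]
    have h2 := dvd_t P H hPc (fun x => α x * (β x : ℂ)) htop ha lam
    exact_mod_cast h2

omit [Fintype G] in
theorem YY_inv (β : Lin H) (lam : Lin P) (q : ℕ) (z : P) (h : H) (g : G)
    (hy : YY P H β lam q g) : YY P H β lam q ((z : G) * g * (h : G)⁻¹) := by
  intro x
  obtain ⟨h1, h2⟩ := hy (z⁻¹ * x * z)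
  have h3 := (mem_iff P H z h g x).2 h1
  refine ⟨h3, ?_⟩
  have h4 : (⟨_, h3⟩ : H) = h * ⟨_, h1⟩ * h⁻¹ := by
    apply Subtype.ext
    show ((z : G) * g * (h : G)⁻¹)⁻¹ * x * ((z : G) * g * (h : G)⁻¹) =
      (h : G) * (g⁻¹ * ((z⁻¹ * x * z : P) : G) * g) * (h : G)⁻¹
    push_cast
    group
  rw [h4, map_mul, map_mul, map_inv, mul_comm (β h), mul_inv_cancel_right, h2, map_mul, map_mul,
    map_inv, mul_comm _ (lam z), mul_inv_cancel_left]

omit [Fintype G] in
theorem YY_iff (β : Lin H) (lam : Lin P) (q : ℕ) (z : P) (h : H) (g : G) :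
    YY P H β lam q ((z : G) * g * (h : G)⁻¹) ↔ YY P H β lam q g := by
  refine ⟨fun hy => ?_, YY_inv P H β lam q z h g⟩
  have h1 := YY_inv P H β lam q z⁻¹ h⁻¹ _ hy
  have h2 : ((z⁻¹ : P) : G) * ((z : G) * g * (h : G)⁻¹) * ((h⁻¹ : H) : G)⁻¹ = g := by
    push_cast
    group
  rwa [h2] at h1

open Classical in
/-- The main congruence. -/
theorem main_dvd (hPc : Nat.card P = p ^ f) {α : H → ℂ} (hα : IsCharacter α) {k : ℕ}
    (hk : α 1 = k) (β : Lin H) {a : ℕ} (ha : 2 ≤ a)
    (hαgal : ∀ b, a ≤ b → ∀ x : H, x ^ p ^ f = 1 → α (x ^ (1 + p ^ (b - 1))) = α x)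
    (lam : Lin P) (hlam : lam ^ (p ^ (a - 1)) ≠ 1)
    (hχ : ∀ b, a ≤ b → ∀ x : P, ind H (fun x => α x * (β x : ℂ)) ((x ^ (1 + p ^ (b - 1)) : P) : G) =
      ind H (fun x => α x * (β x : ℂ)) x) :
    p * Nat.card H ∣ k * Nat.card {g : G // YY P H β lam (p ^ (a - 1)) g} := by
  set θ : H → ℂ := fun x => α x * (β x : ℂ) with hθdef
  have hθ : IsCharacter θ := hα.twist β
  set t : G → ℕ := fun g => ∑ ω ∈ Om P p (a - 1), Tg P H θ g (lam * ω) with ht
  set m : G → ℤ := fun g => if YY P H β lam (p ^ (a - 1)) g then 1 else 0 with hm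
  set B : ℕ := ∑ ω ∈ Om P p (a - 1), mlt (fun x : P => ind H θ x) (lam * ω) with hB
  have hpB : p ∣ B := dvd_coset (χ := fun x : P => ind H θ x) hPc ha hχ hlam
  have hP0 : (Fintype.card P : ℂ) ≠ 0 := by exact_mod_cast Fintype.card_ne_zero
  -- the equation
  have h1 : Nat.card P * Nat.card H * B = ∑ g : G, Nat.card (Pg P H g) * t g := by
    have h2 : ∀ ω, (Nat.card P * Nat.card H : ℂ) *
        ((mlt (fun x : P => ind H θ x) (lam * ω) : ℕ) : ℂ) =
        ∑ g : G, (Nat.card (Pg P H g) : ℂ) * (Tg P H θ g (lam * ω) : ℂ) := by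
      intro ω
      rw [mlt_spec' (ind_nat P H hθ (lam * ω)), ← sum_ind P H hθ (lam * ω),
        Nat.card_eq_fintype_card (α := P)]
      field_simp
    have h3 : ((Nat.card P * Nat.card H * B : ℕ) : ℂ) =
        ((∑ g : G, Nat.card (Pg P H g) * t g : ℕ) : ℂ) := by
      push_cast [hB, ht]
      rw [mul_sum, sum_congr rfl fun ω _ => h2 ω, sum_comm]
      exact sum_congr rfl fun g _ => by rw [mul_sum]
    exact_mod_cast h3
  -- the decomposition of `t`
  have h4 : ∀ g, (p : ℤ) ∣ (t g : ℤ) - m g * k := fun g =>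
    t_modEq P H hPc hα hk β ha hαgal lam g
  set u : G → ℤ := fun g => ((t g : ℤ) - m g * k) / p with hu
  have h5 : ∀ g, (t g : ℤ) = m g * k + p * u g := fun g => by
    rw [hu]
    simp only
    rw [Int.mul_ediv_cancel' (h4 g)]
    ring
  have ht_inv : ∀ (z : P) (h : H) (g : G), t ((z : G) * g * (h : G)⁻¹) = t g := by
    intro z h g
    exact sum_congr rfl fun ω _ => Tg_inv P H hθ z h g _
  have hm_inv : ∀ (z : P) (h : H) (g : G), m ((z : G) * g * (h : G)⁻¹) = m g := by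
    intro z h g
    simp only [hm, YY_iff]
  let _ := dcAct P H
  have h6 := orb (Γ := P × H) (X := G) u fun γ g => by
    show u ((γ.1 : G) * g * (γ.2 : G)⁻¹) = u g
    simp only [hu, ht_inv, hm_inv]
  rw [Nat.card_prod] at h6
  simp only [card_stab] at h6
  obtain ⟨U, hU⟩ := h6
  have h7 : ∑ g : G, (Nat.card (Pg P H g) : ℤ) * m g =
      Nat.card P * Nat.card {g : G // YY P H β lam (p ^ (a - 1)) g} := by
    have h8 : ∀ g : G, (Nat.card (Pg P H g) : ℤ) * m g =
        if YY P H β lam (p ^ (a - 1)) g then (Nat.card P : ℤ) else 0 := by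
      intro g
      simp only [hm]
      split_ifs with hy
      · rw [Pg_eq_top P H fun x => (hy x).1, Subgroup.card_top, mul_one]
      · rw [mul_zero]
    rw [sum_congr rfl fun g _ => h8 g, ← sum_filter, sum_const, nsmul_eq_mul, mul_comm,
      Nat.card_eq_fintype_card (α := {g : G // YY P H β lam (p ^ (a - 1)) g}),
      Fintype.card_subtype]
  have h9 : (Nat.card P : ℤ) * Nat.card H * B = k * (Nat.card P *
      Nat.card {g : G // YY P H β lam (p ^ (a - 1)) g}) + p * (Nat.card P * Nat.card H * U) := by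
    have e1 : (Nat.card P : ℤ) * Nat.card H * B = ∑ g : G, (Nat.card (Pg P H g) : ℤ) * t g := by
      exact_mod_cast h1
    rw [e1, ← h7]
    push_cast at hU
    rw [← hU, mul_sum, mul_sum, ← sum_add_distrib]
    refine sum_congr rfl fun g _ => ?_
    rw [h5 g]
    ring
  have h10 : (Nat.card P : ℤ) ≠ 0 := by exact_mod_cast Nat.card_pos.ne'
  have h11 : (Nat.card H : ℤ) * B = k * Nat.card {g : G // YY P H β lam (p ^ (a - 1)) g} +
      p * (Nat.card H * U) := by
    apply mul_left_cancel₀ h10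
    linear_combination h9
  obtain ⟨B', hB'⟩ := hpB
  have h12 : ((p * Nat.card H : ℕ) : ℤ) ∣
      ((k * Nat.card {g : G // YY P H β lam (p ^ (a - 1)) g} : ℕ) : ℤ) := by
    refine ⟨B' - U, ?_⟩
    rw [hB'] at h11
    push_cast at h11 ⊢
    linear_combination -h11
  exact_mod_cast h12

end

end Pool.Agent.Lib.MP_1aae89_al
end

section
/-!
# Counting the elements of `YY`, and the main theorem
-/
namespace Pool.Agent.Lib.MP_1aae89_al

open Finset

section

variable {G : Type} [Group G] [Fintype G] (P H : Subgroup G) {p : ℕ} [hp : Fact p.Prime] {f : ℕ}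

/-- The elements of `N_G(P)` fixing `λ^q`. -/
def SS (lam : Lin P) (q : ℕ) : Subgroup G where
  carrier := {g | ∀ x : P, ∃ h : g⁻¹ * x * g ∈ P, lam ⟨g⁻¹ * x * g, h⟩ ^ q = lam x ^ q}
  mul_mem' := by
    intro g g' hg hg' x
    obtain ⟨h1, h2⟩ := hg x
    obtain ⟨h3, h4⟩ := hg' ⟨_, h1⟩
    have h5 : (g * g')⁻¹ * x * (g * g') = g'⁻¹ * (g⁻¹ * x * g) * g' := by group
    have h6 : (g * g')⁻¹ * x * (g * g') ∈ P := by rw [h5]; exact h3
    refine ⟨h6, ?_⟩
    have h7 : (⟨_, h6⟩ : P) = ⟨_, h3⟩ := Subtype.ext h5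
    rw [h7, h4, h2]
  one_mem' := by
    intro x
    have h5 : (1 : G)⁻¹ * x * 1 = x := by group
    have h6 : (1 : G)⁻¹ * x * 1 ∈ P := by rw [h5]; exact x.2
    refine ⟨h6, ?_⟩
    have h7 : (⟨_, h6⟩ : P) = x := Subtype.ext h5
    rw [h7]
  inv_mem' := by
    classical
    intro g hg x
    let F : P → P := fun x => ⟨g⁻¹ * x * g, (hg x).1⟩
    have hF : Function.Injective F := by
      intro x y hxy
      have h1 : g⁻¹ * (x : G) * g = g⁻¹ * (y : G) * g := congrArg Subtype.val hxy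
      exact Subtype.ext (mul_left_cancel (mul_right_cancel h1))
    obtain ⟨y, hy⟩ := (Finite.injective_iff_surjective.1 hF) x
    have h2 : g⁻¹ * (y : G) * g = x := congrArg Subtype.val hy
    have h3 : g⁻¹⁻¹ * (x : G) * g⁻¹ = y := by rw [← h2]; group
    have h4 : g⁻¹⁻¹ * (x : G) * g⁻¹ ∈ P := by rw [h3]; exact y.2
    refine ⟨h4, ?_⟩
    have h5 : (⟨_, h4⟩ : P) = y := Subtype.ext h3
    have h6 : (⟨g⁻¹ * (y : G) * g, (hg y).1⟩ : P) = x := hy
    rw [h5, ← (hg y).2, h6]

/-- The number of elements of `YY` is not divisible by `p |H|`, even after multiplication by a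
number prime to `p`. -/
theorem not_dvd (hPH : P ≤ H) (hPc : Nat.card P = p ^ f) (hf : ¬ p ^ (f + 1) ∣ Nat.card G)
    (hconj : ∀ Q : Subgroup G, Q ≤ H → Nat.card Q = p ^ f → ∃ h ∈ H, ∀ y ∈ Q, h⁻¹ * y * h ∈ P)
    (β : Lin H) (lam : Lin P) (hlam : ∀ x : P, lam x = β ⟨x, hPH x.2⟩) (q : ℕ) {k : ℕ}
    (hpk : ¬ p ∣ k) : ¬ p * Nat.card H ∣ k * Nat.card {g : G // YY P H β lam q g} := by
  classical
  intro hdvd
  set S := SS P lam q with hS
  let _ := dcAct S H
  -- the orbit
  have horb : ∀ g : G, g ∈ MulAction.orbit (S × H) (1 : G) ↔ YY P H β lam q g := by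
    intro g
    constructor
    · rintro ⟨⟨s, h⟩, rfl⟩ x
      obtain ⟨h1, h2⟩ := s.2 x
      show ∃ h3 : ((s : G) * 1 * (h : G)⁻¹)⁻¹ * x * ((s : G) * 1 * (h : G)⁻¹) ∈ H, _
      have h4 : ((s : G) * 1 * (h : G)⁻¹)⁻¹ * x * ((s : G) * 1 * (h : G)⁻¹) =
          h * ((s : G)⁻¹ * x * s) * (h : G)⁻¹ := by group
      have h5 : ((s : G) * 1 * (h : G)⁻¹)⁻¹ * x * ((s : G) * 1 * (h : G)⁻¹) ∈ H := by
        rw [h4]
        exact H.mul_mem (H.mul_mem h.2 (hPH h1)) (H.inv_mem h.2)
      refine ⟨h5, ?_⟩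
      have h6 : (⟨_, h5⟩ : H) = h * ⟨_, hPH h1⟩ * h⁻¹ := Subtype.ext h4
      show β ⟨((s : G) * 1 * (h : G)⁻¹)⁻¹ * x * ((s : G) * 1 * (h : G)⁻¹), h5⟩ ^ q = _
      rw [h6, map_mul, map_mul, map_inv, mul_comm (β h), mul_inv_cancel_right, ← h2, hlam ⟨_, h1⟩]
    · intro hy
      let Q : Subgroup G := P.map (MulAut.conj g⁻¹).toMonoidHom
      have hQ : Q ≤ H := by
        rintro _ ⟨x, hx, rfl⟩
        obtain ⟨h1, -⟩ := hy ⟨x, hx⟩
        simpa using h1
      have hQc : Nat.card Q = p ^ f := by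
        rw [← hPc]
        exact Subgroup.card_map_of_injective (MulAut.conj g⁻¹).injective
      obtain ⟨h, hh, hc⟩ := hconj Q hQ hQc
      have h1 : ∀ x : P, h⁻¹ * (g⁻¹ * x * g) * h ∈ P := fun x =>
        hc _ ⟨x, x.2, by simp⟩
      have hs : g * h ∈ S := by
        intro x
        have h2 : (g * h)⁻¹ * x * (g * h) = h⁻¹ * (g⁻¹ * x * g) * h := by group
        have h3 : (g * h)⁻¹ * x * (g * h) ∈ P := by rw [h2]; exact h1 x
        refine ⟨h3, ?_⟩
        obtain ⟨h4, h5⟩ := hy x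
        rw [← h5, hlam]
        have h6 : (⟨(g * h)⁻¹ * x * (g * h), hPH h3⟩ : H) =
            (⟨h, hh⟩ : H)⁻¹ * ⟨_, h4⟩ * ⟨h, hh⟩ := Subtype.ext h2
        show β ⟨(g * h)⁻¹ * x * (g * h), hPH h3⟩ ^ q = _
        rw [h6, map_mul, map_mul, map_inv, mul_comm, mul_inv_cancel_left]
      refine ⟨(⟨g * h, hs⟩, ⟨h, hh⟩), ?_⟩
      show (g * h) * 1 * h⁻¹ = g
      group
  have hcard := MulAction.card_orbit_mul_card_stabilizer_eq_card_group (S × H) (1 : G)
  have hY : Nat.card {g : G // YY P H β lam q g} =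
      Fintype.card (MulAction.orbit (S × H) (1 : G)) := by
    rw [← Nat.card_eq_fintype_card]
    exact Nat.card_congr (Equiv.subtypeEquivRight fun g => (horb g).symm)
  rw [← hY, ← Nat.card_eq_fintype_card (α := MulAction.stabilizer (S × H) (1 : G)),
    ← Nat.card_eq_fintype_card (α := S × H), Nat.card_prod] at hcard
  -- `P` embeds in the stabilizer
  have hPS : P ≤ S := by
    intro z hz x
    have h1 : z⁻¹ * x * z ∈ P := P.mul_mem (P.mul_mem (P.inv_mem hz) x.2) hz
    refine ⟨h1, ?_⟩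
    have h2 : (⟨_, h1⟩ : P) = (⟨z, hz⟩ : P)⁻¹ * x * ⟨z, hz⟩ := rfl
    rw [h2, map_mul, map_mul, map_inv, mul_comm, mul_inv_cancel_left]
  have hPst : Nat.card P ∣ Nat.card (MulAction.stabilizer (S × H) (1 : G)) := by
    let φ : P →* MulAction.stabilizer (S × H) (1 : G) :=
      MonoidHom.mk' (fun x => ⟨(⟨x, hPS x.2⟩, ⟨x, hPH x.2⟩), by
        show (x : G) * 1 * (x : G)⁻¹ = 1
        group⟩) fun x y => rfl
    have hφ : Function.Injective φ := by
      intro x y hxy
      have h1 := congrArg (fun r : MulAction.stabilizer (S × H) (1 : G) => ((r.1.1 : S) : G)) hxy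
      exact Subtype.ext h1
    exact Subgroup.card_dvd_of_injective φ hφ
  -- valuations
  set v := (Nat.card H).factorization p with hv
  have hH0 : Nat.card H ≠ 0 := Nat.card_pos.ne'
  have h1 : p ^ (v + 1) ∣ Nat.card {g : G // YY P H β lam q g} := by
    have h2 : p ^ (v + 1) ∣ p * Nat.card H := by
      rw [pow_succ']
      exact Nat.mul_dvd_mul_left p (Nat.ordProj_dvd _ _)
    have h3 := h2.trans hdvd
    exact (Nat.Coprime.pow_left _ ((hp.out.coprime_iff_not_dvd).2 hpk)).dvd_of_dvd_mul_left h3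
  have h4 : p ^ (v + 1 + f) ∣ Nat.card S * Nat.card H := by
    rw [← hcard, pow_add, ← hPc]
    exact Nat.mul_dvd_mul h1 hPst
  have hS0 : Nat.card S ≠ 0 := Nat.card_pos.ne'
  have h5 := (hp.out.pow_dvd_iff_le_factorization (mul_ne_zero hS0 hH0)).1 h4
  rw [Nat.factorization_mul hS0 hH0, Finsupp.add_apply, ← hv] at h5
  have h6 : p ^ (f + 1) ∣ Nat.card S :=
    (hp.out.pow_dvd_iff_le_factorization hS0).2 (by omega)
  exact hf (h6.trans (Subgroup.card_subgroup_dvd_card S))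

end

end Pool.Agent.Lib.MP_1aae89_al
end

section
/-!
# The level of induced characters
-/
namespace Pool.Agent.Lib.MP_1aae89_al

open Finset Polynomial

theorem cyc_mono {a b : ℕ} (h : a ∣ b) (hb : b ≠ 0) : cycField a ≤ cycField b := by
  unfold cycField
  rw [IntermediateField.adjoin_le_iff]
  rintro _ rfl
  rw [← zeta_pow_div h hb]
  exact pow_mem (IntermediateField.mem_adjoin_simple_self ℚ (zeta b)) _

theorem root_mem {n : ℕ} (hn : n ≠ 0) {z : ℂ} (hz : z ^ n = 1) : z ∈ cycField n := by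
  have : NeZero n := ⟨hn⟩
  obtain ⟨i, -, rfl⟩ := (zeta_prim hn).eq_pow_of_pow_eq_one hz
  exact pow_mem (IntermediateField.mem_adjoin_simple_self ℚ (zeta n)) _

/-- Linear characters are characters. -/
theorem isCharacter_linear {G : Type} [Group G] (β : G →* ℂˣ) :
    IsCharacter fun x => (β x : ℂ) := by
  have h1 : IsCharacter (fun _ : G => (1 : ℂ)) :=
    ⟨1, 1, fun g => by rw [MonoidHom.one_apply, Matrix.trace_one, Fintype.card_fin]; norm_num⟩
  have h2 := h1.twist β
  simpa using h2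

theorem lev_spec {G : Type} [Group G] [Fintype G] {χ : G → ℂ} (h : IsCharacter χ) (p : ℕ) :
    conductor χ ≠ 0 ∧ (∀ g, χ g ∈ cycField (conductor χ)) ∧
      (conductor χ).factorization p = lev p χ := by
  obtain ⟨h1, h2⟩ := conductor_spec Fintype.card_ne_zero h.mem_cyc_card
  exact ⟨h1, h2, rfl⟩

section

variable {G : Type} [Group G] [Fintype G] (H : Subgroup G)

/-- Galois conjugation for the induced function. -/
theorem gal_ind {θ : H → ℂ} (hθ : IsCharacter θ) {p : ℕ} [hp : Fact p.Prime] {n : ℕ}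
    (hn : n ≠ 0) (hmem : ∀ g, ind H θ g ∈ cycField n) {b : ℕ} (hb : 2 ≤ b)
    (hnb : n.factorization p < b) {x : G} {e : ℕ} (hx : x ^ (p ^ e) = 1) :
    ind H θ (x ^ (1 + p ^ (b - 1))) = ind H θ x := by
  classical
  have hN : p ^ e ≠ 0 := pow_ne_zero e hp.out.ne_zero
  set j := 1 + p ^ (b - 1) with hj
  have hcop : (p ^ e).Coprime j := by
    apply Nat.Coprime.pow_left
    rw [hp.out.coprime_iff_not_dvd]
    intro hd
    have h1 : p ∣ p ^ (b - 1) := dvd_pow_self p (by omega)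
    have h2 := (Nat.dvd_add_left h1).1 hd
    exact hp.out.one_lt.not_ge (Nat.le_of_dvd one_pos h2)
  -- the polynomials
  have hpoly : ∀ g : G, ∃ P : ℚ[X],
      (if h : g⁻¹ * x * g ∈ H then θ ⟨g⁻¹ * x * g, h⟩ else 0) = aeval (zeta (p ^ e)) P ∧
      (if h : g⁻¹ * x ^ j * g ∈ H then θ ⟨g⁻¹ * x ^ j * g, h⟩ else 0) =
        aeval (zeta (p ^ e) ^ j) P := by
    intro g
    have hpow : ∀ i : ℕ, g⁻¹ * x ^ i * g = (g⁻¹ * x * g) ^ i := by
      intro i
      have := (conj_pow (i := i) (a := g⁻¹) (b := x)).symm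
      rw [inv_inv] at this
      exact this
    by_cases h : g⁻¹ * x * g ∈ H
    · have h1 : (⟨g⁻¹ * x * g, h⟩ : H) ^ (p ^ e) = 1 := by
        apply Subtype.ext
        show (g⁻¹ * x * g) ^ (p ^ e) = 1
        rw [← hpow, hx]; group
      obtain ⟨P, hP⟩ := hθ.eval_pow hN h1
      have h2 : g⁻¹ * x ^ j * g ∈ H := by rw [hpow]; exact H.pow_mem h j
      refine ⟨P, ?_, ?_⟩
      · rw [dif_pos h]
        have := hP 1
        rwa [pow_one, pow_one] at this
      · rw [dif_pos h2, ← hP j]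
        congr 1
        exact Subtype.ext (hpow j)
    · have h2 : g⁻¹ * x ^ j * g ∉ H := by
        intro h3
        apply h
        rw [hpow] at h3
        have h4 : (g⁻¹ * x * g) ^ (p ^ e) = 1 := by rw [← hpow, hx]; group
        -- a power of the power
        have h5 : j.Coprime (orderOf (g⁻¹ * x * g)) :=
          (Nat.Coprime.coprime_dvd_left (orderOf_dvd_of_pow_eq_one h4) hcop).symm
        obtain ⟨c, hc⟩ := exists_pow_eq_self_of_coprime h5
        rw [← hc]
        exact H.pow_mem h3 c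
      refine ⟨0, ?_, ?_⟩
      · rw [dif_neg h, map_zero]
      · rw [dif_neg h2, map_zero]
  choose Pg hP1 hP2 using hpoly
  refine gal_core (e := e) (P := C ((Nat.card H : ℚ)⁻¹) * ∑ g, Pg g) hn (hmem x) hb hnb ?_ ?_
  · unfold ind
    rw [map_mul, map_sum, aeval_C, sum_congr rfl fun g _ => hP1 g]
    simp
  · unfold ind
    rw [map_mul, map_sum, aeval_C, sum_congr rfl fun g _ => hP2 g]
    simp [hj]

/-- The level of an induced function, for a subgroup of index prime to `p`. -/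
theorem lev_ind {p : ℕ} [hp : Fact p.Prime] (hH : ¬ p ∣ H.index) {α : H → ℂ}
    (hα : IsCharacter α) {k : ℕ} (hk : α 1 = k) (hpk : ¬ p ∣ k) (β : H →* ℂˣ)
    (h1 : lev p α < lev p fun x => (β x : ℂ)) (h2 : 2 ≤ lev p fun x => (β x : ℂ)) :
    lev p (ind H fun x => α x * (β x : ℂ)) = lev p fun x => (β x : ℂ) := by
  classical
  set a := lev p fun x => (β x : ℂ) with ha
  have hβ : IsCharacter fun x => (β x : ℂ) := isCharacter_linear β
  obtain ⟨a1, a2, a3⟩ := lev_spec hα p
  obtain ⟨b1, b2, b3⟩ := lev_spec hβ p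
  set n1 := conductor α with hn1
  set n2 := conductor fun x => (β x : ℂ) with hn2
  -- the upper bound
  have hN0 : n1.lcm n2 ≠ 0 := Nat.lcm_ne_zero a1 b1
  have hmem : ∀ g, ind H (fun x => α x * (β x : ℂ)) g ∈ cycField (n1.lcm n2) := by
    intro g
    unfold ind
    refine mul_mem (inv_mem (natCast_mem _ _)) (sum_mem fun x _ => ?_)
    split_ifs with h
    · exact mul_mem (cyc_mono (Nat.dvd_lcm_left n1 n2) hN0 (a2 _))
        (cyc_mono (Nat.dvd_lcm_right n1 n2) hN0 (b2 _))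
    · exact zero_mem _
  have hfac : (n1.lcm n2).factorization p = a := by
    rw [Nat.factorization_lcm a1 b1, Finsupp.sup_apply, a3, b3]
    exact max_eq_right h1.le
  have hle : lev p (ind H fun x => α x * (β x : ℂ)) ≤ a := by
    rw [← hfac]
    exact lev_le p hN0 hmem
  refine le_antisymm hle ?_
  by_contra hlt
  push Not at hlt
  obtain ⟨c1, c2⟩ := conductor_spec hN0 hmem
  set n3 := conductor (ind H fun x => α x * (β x : ℂ)) with hn3
  have c3 : n3.factorization p < a := hlt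
  -- the Sylow subgroup
  set f := (Nat.card H).factorization p with hf
  obtain ⟨P0⟩ : Nonempty (Sylow p H) := inferInstance
  let P : Subgroup G := (P0 : Subgroup H).map H.subtype
  have hPH : P ≤ H := by
    rintro _ ⟨x, -, rfl⟩
    exact x.2
  have hPc : Nat.card P = p ^ f := by
    have h3 : Nat.card P = Nat.card (P0 : Subgroup H) :=
      Subgroup.card_map_of_injective H.subtype_injective
    rw [h3]
    exact P0.card_eq_multiplicity
  have hG0 : Nat.card G ≠ 0 := Nat.card_pos.ne'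
  have hH0 : Nat.card H ≠ 0 := Nat.card_pos.ne'
  have hcardG : (Nat.card G).factorization p = f := by
    rw [← H.card_mul_index, Nat.factorization_mul hH0 H.index_ne_zero_of_finite,
      Finsupp.add_apply, Nat.factorization_eq_zero_of_not_dvd hH, add_zero]
  have hfG : ¬ p ^ (f + 1) ∣ Nat.card G := by
    intro h
    have := (hp.out.pow_dvd_iff_le_factorization hG0).1 h
    omega
  have hconj : ∀ Q : Subgroup G, Q ≤ H → Nat.card Q = p ^ f →
      ∃ h ∈ H, ∀ y ∈ Q, h⁻¹ * y * h ∈ P := by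
    intro Q hQ hQc
    have h3 : Nat.card (Q.subgroupOf H) = p ^ (Nat.card H).factorization p := by
      rw [Nat.card_congr (Subgroup.subgroupOfEquivOfLe hQ).toEquiv, hQc]
    obtain ⟨h, hh⟩ := MulAction.exists_smul_eq H (Sylow.ofCard (Q.subgroupOf H) h3) P0
    refine ⟨((h⁻¹ : H) : G), (h⁻¹).2, fun y hy => ?_⟩
    have h4 : (⟨y, hQ hy⟩ : H) ∈ (Sylow.ofCard (Q.subgroupOf H) h3 : Subgroup H) := hy
    have h5 : h * ⟨y, hQ hy⟩ * h⁻¹ ∈ (P0 : Subgroup H) := by
      rw [← hh]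
      rw [Sylow.coe_subgroup_smul]
      exact ⟨⟨y, hQ hy⟩, h4, rfl⟩
    refine ⟨h * ⟨y, hQ hy⟩ * h⁻¹, h5, ?_⟩
    show (h : G) * y * (h : G)⁻¹ = ((h⁻¹ : H) : G)⁻¹ * y * ((h⁻¹ : H) : G)
    push_cast
    rw [inv_inv]
  let lam : Lin P := pb (Subgroup.inclusion hPH) (β : Lin H)
  have hlam : ∀ x : P, lam x = β ⟨x, hPH x.2⟩ := fun x => rfl
  -- the order of `lam`
  have hlam1 : lam ^ (p ^ (a - 1)) ≠ 1 := by
    intro h0
    set r := Nat.card H / p ^ f with hr
    have hr1 : p ^ f * r = Nat.card H := Nat.mul_div_cancel' (Nat.ordProj_dvd _ _)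
    have hr0 : r ≠ 0 := by
      rintro h3
      rw [h3, mul_zero] at hr1
      exact hH0 hr1.symm
    have hval : ∀ x : H, ((β x : ℂˣ) : ℂ) ∈ cycField (r * p ^ (a - 1)) := by
      intro x
      apply root_mem (mul_ne_zero hr0 (pow_ne_zero _ hp.out.ne_zero))
      rw [pow_mul]
      have h3 : IsPGroup p (Subgroup.zpowers (x ^ r)) := by
        rw [IsPGroup.iff_card]
        have h4 : (x ^ r) ^ (p ^ f) = 1 := by
          rw [← pow_mul, mul_comm, hr1, pow_card_eq_one']
        obtain ⟨i, -, hi⟩ := (Nat.dvd_prime_pow hp.out).1 (orderOf_dvd_of_pow_eq_one h4)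
        exact ⟨i, by rw [Nat.card_zpowers, hi]⟩
      obtain ⟨Q, hQ⟩ := h3.exists_le_sylow
      obtain ⟨c, hc⟩ := MulAction.exists_smul_eq H Q P0
      have h5 : c * x ^ r * c⁻¹ ∈ (P0 : Subgroup H) := by
        rw [← hc, Sylow.coe_subgroup_smul]
        exact ⟨x ^ r, hQ (Subgroup.mem_zpowers _), rfl⟩
      have h6 : lam ⟨((c * x ^ r * c⁻¹ : H) : G), ⟨_, h5, rfl⟩⟩ ^ (p ^ (a - 1)) = 1 := by
        rw [← Lin.pow_apply, h0, Lin.one_apply]
      rw [hlam] at h6
      have h7 : β (c * x ^ r * c⁻¹) = β x ^ r := by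
        rw [map_mul, map_mul, map_inv, mul_comm (β c), mul_inv_cancel_right, map_pow]
      have h8 : (β x ^ r) ^ (p ^ (a - 1)) = 1 := by
        rw [← h7]
        exact h6
      have h9 := congrArg (fun z : ℂˣ => (z : ℂ)) h8
      simpa using h9
    have h3 := lev_le p (mul_ne_zero hr0 (pow_ne_zero _ hp.out.ne_zero)) hval
    rw [← ha, Nat.factorization_mul hr0 (pow_ne_zero _ hp.out.ne_zero), Finsupp.add_apply,
      hp.out.factorization_pow, Finsupp.single_eq_same] at h3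
    have h4 : r.factorization p = 0 := by
      have h5 := congrArg (fun n : ℕ => n.factorization p) hr1
      rw [Nat.factorization_mul (pow_ne_zero _ hp.out.ne_zero) hr0, Finsupp.add_apply,
        hp.out.factorization_pow, Finsupp.single_eq_same] at h5
      omega
    omega
  -- Galois invariance
  have hαgal : ∀ b, a ≤ b → ∀ x : H, x ^ p ^ f = 1 → α (x ^ (1 + p ^ (b - 1))) = α x := by
    intro b hb x hx
    exact hα.gal a1 a2 (by omega) (by omega) hx
  have hχ : ∀ b, a ≤ b → ∀ x : P,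
      ind H (fun x => α x * ((β : Lin H) x : ℂ)) ((x ^ (1 + p ^ (b - 1)) : P) : G) =
      ind H (fun x => α x * ((β : Lin H) x : ℂ)) x := by
    intro b hb x
    have hx : (x : G) ^ p ^ f = 1 := by
      have h3 : x ^ p ^ f = 1 := by rw [← hPc, pow_card_eq_one']
      exact_mod_cast congrArg Subtype.val h3
    have h4 := gal_ind H (hα.twist β) c1 c2 (show 2 ≤ b by omega)
      (show n3.factorization p < b by omega) hx
    push_cast
    exact h4
  exact not_dvd P H hPH hPc hfG hconj (β : Lin H) lam hlam (p ^ (a - 1)) hpk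
    (main_dvd P H hPc hα hk (β : Lin H) h2 hαgal lam hlam1 hχ)

end

section

open Classical in
/-- Transitivity of induction. -/
theorem ind_ind {G : Type} [Group G] [Fintype G] (M : Subgroup G) (W : Subgroup M) (θ : W → ℂ)
    (g : G) : ind M (ind W θ) g =
      ind (W.map M.subtype)
        (fun x => θ ((W.equivMapOfInjective M.subtype M.subtype_injective).symm x)) g := by
  set e := W.equivMapOfInjective M.subtype M.subtype_injective with he
  set F : G → ℂ := fun z => if h : z⁻¹ * g * z ∈ W.map M.subtype then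
    θ (e.symm ⟨z⁻¹ * g * z, h⟩) else 0 with hF
  have hM0 : (Nat.card M : ℂ) ≠ 0 := by exact_mod_cast Nat.card_pos.ne'
  have hcard : Nat.card (W.map M.subtype) = Nat.card W :=
    Subgroup.card_map_of_injective M.subtype_injective
  have h1 : ind (W.map M.subtype) (fun x => θ (e.symm x)) g = (Nat.card W : ℂ)⁻¹ * ∑ z, F z := by
    unfold ind
    rw [hcard]
  have h2 : ∀ x : G, (if h : x⁻¹ * g * x ∈ M then ind W θ ⟨x⁻¹ * g * x, h⟩ else 0) =
      (Nat.card W : ℂ)⁻¹ * ∑ y : M, F (x * y) := by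
    intro x
    split_ifs with h
    · unfold ind
      congr 1
      refine sum_congr rfl fun y _ => ?_
      have h3 : ((y⁻¹ * ⟨x⁻¹ * g * x, h⟩ * y : M) : G) = (x * (y : G))⁻¹ * g * (x * y) := by
        push_cast
        group
      by_cases h4 : y⁻¹ * ⟨x⁻¹ * g * x, h⟩ * y ∈ W
      · have h5 : (x * (y : G))⁻¹ * g * (x * y) ∈ W.map M.subtype := ⟨_, h4, h3⟩
        rw [dif_pos h4, hF]
        simp only
        rw [dif_pos h5]
        congr 1
        rw [eq_comm, MulEquiv.symm_apply_eq]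
        apply Subtype.ext
        rw [he, Subgroup.coe_equivMapOfInjective_apply]
        exact h3.symm
      · have h5 : (x * (y : G))⁻¹ * g * (x * y) ∉ W.map M.subtype := by
          rintro ⟨w, hw, hw'⟩
          apply h4
          have h6 : y⁻¹ * ⟨x⁻¹ * g * x, h⟩ * y = w := Subtype.ext (h3.trans hw'.symm)
          rw [h6]
          exact hw
        rw [dif_neg h4, hF]
        simp only
        rw [dif_neg h5]
    · have h3 : ∀ y : M, F (x * y) = 0 := by
        intro y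
        rw [hF]
        simp only
        rw [dif_neg]
        rintro ⟨w, -, hw'⟩
        apply h
        have h6 : (w : G) = (x * (y : G))⁻¹ * g * (x * y) := hw'
        have h7 : x⁻¹ * g * x = y * w * (y : G)⁻¹ := by rw [h6]; group
        rw [h7]
        exact M.mul_mem (M.mul_mem y.2 w.2) (M.inv_mem y.2)
      rw [sum_congr rfl fun y _ => h3 y, sum_const_zero, mul_zero]
  rw [h1]
  have h0 : ind M (ind W θ) g = (Nat.card M : ℂ)⁻¹ * ∑ x : G,
      (Nat.card W : ℂ)⁻¹ * ∑ y : M, F (x * y) := by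
    conv_lhs => unfold ind
    rw [← sum_congr rfl fun x _ => h2 x]
    rfl
  rw [h0, ← mul_sum, sum_comm]
  have h3 : ∀ y : M, ∑ x : G, F (x * y) = ∑ z, F z := fun y =>
    Fintype.sum_equiv (Equiv.mulRight (y : G)) _ _ fun x => rfl
  rw [sum_congr rfl fun y _ => h3 y, sum_const, card_univ, nsmul_eq_mul,
    ← Nat.card_eq_fintype_card, mul_left_comm (Nat.card W : ℂ)⁻¹, ← mul_assoc,
    inv_mul_cancel₀ hM0, one_mul]

theorem charField_comp {A B : Type} (e : A ≃ B) (χ : B → ℂ) :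
    charField (fun x => χ (e x)) = charField χ := by
  unfold charField
  congr 1
  exact e.surjective.range_comp χ

theorem lev_comp (p : ℕ) {A B : Type} (e : A ≃ B) (χ : B → ℂ) :
    lev p (fun x => χ (e x)) = lev p χ := by
  unfold lev conductor
  rw [charField_comp e χ]

end

end Pool.Agent.Lib.MP_1aae89_al
end
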