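import Pool.Agent.Lib.MP_1aae89_al.Cyc

/-!
# Characters, multiplicities of linear characters, Galois conjugation on `p`-elements
-/

namespace Pool.Agent.Lib.MP_1aae89_al

open Polynomial

/-- `χ` is the character of a complex matrix representation of `G`. -/
def IsCharacter {G : Type} [Group G] (χ : G → ℂ) : Prop :=
  ∃ (n : ℕ) (ρ : G →* Matrix (Fin n) (Fin n) ℂ), ∀ g, χ g = (ρ g).trace

/-- The trace of an idempotent complex matrix is a natural number. -/
theorem trace_idem {n : ℕ} (E : Matrix (Fin n) (Fin n) ℂ) (h : E * E = E) :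
    ∃ k : ℕ, E.trace = k := by
  have h1 : IsIdempotentElem (Matrix.toLin' E) := by
    unfold IsIdempotentElem
    rw [Module.End.mul_eq_comp, ← Matrix.toLin'_mul, h]
  have h2 := (LinearMap.isProj_range_iff_isIdempotentElem _).2 h1
  refine ⟨Module.finrank ℂ (LinearMap.range (Matrix.toLin' E)), ?_⟩
  rw [← h2.trace, Matrix.trace_toLin'_eq]

/-- Galois conjugation for values of polynomials at roots of unity. -/
theorem gal_core {p : ℕ} [hp : Fact p.Prime] {n : ℕ} (hn : n ≠ 0) {u v : ℂ}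
    (hmem : u ∈ cycField n) {b : ℕ} (hb : 2 ≤ b) (hnb : n.factorization p < b) {e : ℕ} {P : ℚ[X]}
    (hu : u = aeval (zeta (p ^ e)) P) (hv : v = aeval (zeta (p ^ e) ^ (1 + p ^ (b - 1))) P) :
    v = u := by
  have hN : p ^ e ≠ 0 := pow_ne_zero _ hp.out.ne_zero
  obtain ⟨Q, hQ⟩ := (mem_cyc hn).1 hmem
  have hmod : (1 + p ^ (b - 1)) ≡ 1 [MOD (p ^ e).gcd n] := by
    have h1 : (p ^ e).gcd n ∣ p ^ (b - 1) := by
      obtain ⟨i, -, hi⟩ := (Nat.dvd_prime_pow hp.out).1 (Nat.gcd_dvd_left (p ^ e) n)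
      rw [hi]
      apply pow_dvd_pow
      have h2 : p ^ i ∣ n := by rw [← hi]; exact Nat.gcd_dvd_right _ _
      have h3 := (hp.out.pow_dvd_iff_le_factorization hn).1 h2
      omega
    have h2 : 1 + p ^ (b - 1) ≡ 1 + 0 [MOD (p ^ e).gcd n] :=
      Nat.ModEq.add_left 1 ((Nat.modEq_zero_iff_dvd).2 h1)
    exact h2
  obtain ⟨t, ht1, ht2⟩ := Nat.chineseRemainder' hmod
  have hcop : t.Coprime ((p ^ e).lcm n) := by
    have e1 : t.Coprime (p ^ e) := by
      unfold Nat.Coprime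
      rw [ht1.gcd_eq]
      apply Nat.Coprime.pow_right
      rw [Nat.coprime_comm, hp.out.coprime_iff_not_dvd]
      intro hd
      have h1 : p ∣ p ^ (b - 1) := dvd_pow_self p (by omega)
      have h2 := (Nat.dvd_add_left h1).1 hd
      exact hp.out.one_lt.not_ge (Nat.le_of_dvd one_pos h2)
    have e2 : t.Coprime n := by
      unfold Nat.Coprime
      rw [ht2.gcd_eq]; exact Nat.gcd_one_left n
    exact Nat.Coprime.coprime_dvd_right (Nat.lcm_dvd_mul _ n) (e1.mul_right e2)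
  have h1 := transfer hN hn hcop P Q (hu.symm.trans hQ.symm)
  rw [zeta_pow_congr hN ht1, zeta_pow_congr hn ht2, pow_one, hQ, ← hv] at h1
  exact h1

namespace IsCharacter

variable {G H : Type} [Group G] [Group H]

theorem comp {χ : G → ℂ} (h : IsCharacter χ) (f : H →* G) : IsCharacter fun x => χ (f x) := by
  obtain ⟨n, ρ, hρ⟩ := h
  exact ⟨n, ρ.comp f, fun g => hρ (f g)⟩

theorem twist {χ : G → ℂ} (h : IsCharacter χ) (μ : G →* ℂˣ) :
    IsCharacter fun x => χ x * (μ x : ℂ) := by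
  obtain ⟨n, ρ, hρ⟩ := h
  refine ⟨n, ⟨⟨fun g => (μ g : ℂ) • ρ g, ?_⟩, ?_⟩, ?_⟩
  · rw [map_one, map_one, Units.val_one, one_smul]
  · intro x y
    show ((μ (x * y) : ℂˣ) : ℂ) • ρ (x * y) = ((μ x : ℂ) • ρ x) * ((μ y : ℂ) • ρ y)
    rw [map_mul, map_mul, Units.val_mul, Matrix.smul_mul, Matrix.mul_smul, smul_smul]
  · intro g
    show χ g * (μ g : ℂ) = ((μ g : ℂ) • ρ g).trace
    rw [Matrix.trace_smul, smul_eq_mul, hρ, mul_comm]

theorem conj {χ : G → ℂ} (h : IsCharacter χ) (g x : G) : χ (g⁻¹ * x * g) = χ x := by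
  obtain ⟨n, ρ, hρ⟩ := h
  rw [hρ, hρ, map_mul, map_mul, Matrix.trace_mul_cycle, ← map_mul, mul_inv_cancel, map_one,
    one_mul]

theorem one_nat {χ : G → ℂ} (h : IsCharacter χ) : ∃ k : ℕ, χ 1 = k := by
  obtain ⟨n, ρ, hρ⟩ := h
  refine ⟨n, ?_⟩
  rw [hρ, map_one, Matrix.trace_one, Fintype.card_fin]

/-- The multiplicity of the trivial character is a natural number. -/
theorem avg [Fintype G] {χ : G → ℂ} (h : IsCharacter χ) :
    ∃ k : ℕ, (Fintype.card G : ℂ)⁻¹ * ∑ x, χ x = k := by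
  obtain ⟨n, ρ, hρ⟩ := h
  set E : Matrix (Fin n) (Fin n) ℂ := (Fintype.card G : ℂ)⁻¹ • ∑ x, ρ x with hE
  have hc : (Fintype.card G : ℂ) ≠ 0 := by exact_mod_cast Fintype.card_ne_zero
  have h1 : ∀ y, ρ y * E = E := by
    intro y
    rw [hE, Matrix.mul_smul, Matrix.mul_sum]
    congr 1
    refine Fintype.sum_equiv (Equiv.mulLeft y) _ _ fun x => ?_
    rw [Equiv.coe_mulLeft, map_mul]
  have h2 : E * E = E := by
    conv_lhs => rw [hE, Matrix.smul_mul, Matrix.sum_mul, Finset.sum_congr rfl fun x _ => h1 x]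
    rw [Finset.sum_const, Finset.card_univ, ← Nat.cast_smul_eq_nsmul ℂ, smul_smul,
      inv_mul_cancel₀ hc, one_smul]
  obtain ⟨k, hk⟩ := trace_idem E h2
  refine ⟨k, ?_⟩
  rw [← hk, hE, Matrix.trace_smul, Matrix.trace_sum, smul_eq_mul]
  congr 1
  exact Finset.sum_congr rfl fun x _ => hρ x

/-- The values on the powers of an element of order dividing `N`. -/
theorem eval_pow {χ : G → ℂ} (h : IsCharacter χ) {N : ℕ} (hN : N ≠ 0) {x : G} (hx : x ^ N = 1) :
    ∃ P : ℚ[X], ∀ j : ℕ, χ (x ^ j) = aeval (zeta N ^ j) P := by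
  obtain ⟨n, ρ, hρ⟩ := h
  set A := ρ x with hA
  have hAN : A ^ N = 1 := by rw [hA, ← map_pow, hx, map_one]
  have hz := zeta_prim hN
  have hNC : (N : ℂ) ≠ 0 := by exact_mod_cast hN
  -- the eigenvalue multiplicities
  have hm : ∀ i : ℕ, ∃ k : ℕ,
      (N : ℂ)⁻¹ * ∑ l ∈ Finset.range N, ((zeta N)⁻¹ ^ i) ^ l * χ (x ^ l) = k := by
    intro i
    set B : Matrix (Fin n) (Fin n) ℂ := ((zeta N)⁻¹ ^ i) • A with hB
    have hBN : B ^ N = 1 := by
      rw [hB, _root_.smul_pow, hAN, ← pow_mul, mul_comm i N, pow_mul, inv_pow, hz.pow_eq_one, inv_one,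
        one_pow, one_smul]
    set E : Matrix (Fin n) (Fin n) ℂ := (N : ℂ)⁻¹ • ∑ l ∈ Finset.range N, B ^ l with hE
    have h1 : B * E = E := by
      rw [hE, Matrix.mul_smul, Matrix.mul_sum]
      congr 1
      have : ∀ l, B * B ^ l = B ^ (l + 1) := fun l => (pow_succ' B l).symm
      simp only [this]
      have h2 := Finset.sum_range_succ (fun l => B ^ l) N
      have h3 := Finset.sum_range_succ' (fun l => B ^ l) N
      rw [h2] at h3
      rw [hBN, pow_zero] at h3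
      exact (add_right_cancel h3).symm
    have h2 : ∀ l : ℕ, B ^ l * E = E := by
      intro l
      induction l with
      | zero => rw [pow_zero, one_mul]
      | succ l ih => rw [pow_succ, mul_assoc, h1, ih]
    have h3 : E * E = E := by
      conv_lhs => rw [hE, Matrix.smul_mul, Matrix.sum_mul, Finset.sum_congr rfl fun l _ => h2 l]
      rw [Finset.sum_const, Finset.card_range, ← Nat.cast_smul_eq_nsmul ℂ, smul_smul,
        inv_mul_cancel₀ hNC, one_smul]
    obtain ⟨k, hk⟩ := trace_idem E h3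
    refine ⟨k, ?_⟩
    rw [← hk, hE, Matrix.trace_smul, Matrix.trace_sum, smul_eq_mul]
    congr 1
    refine Finset.sum_congr rfl fun l _ => ?_
    rw [hB, _root_.smul_pow, Matrix.trace_smul, smul_eq_mul, hρ, map_pow]
  choose mlt hmlt using hm
  refine ⟨∑ i ∈ Finset.range N, (mlt i : ℚ[X]) * X ^ i, fun j => ?_⟩
  rw [map_sum]
  simp only [map_mul, map_natCast, map_pow, aeval_X, ← hmlt]
  -- orthogonality
  have horth : ∀ l ∈ Finset.range N, ∑ i ∈ Finset.range N,
      (zeta N ^ j) ^ i * ((zeta N)⁻¹ ^ i) ^ l = if l = j % N then (N : ℂ) else 0 := by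
    intro l hl
    rw [Finset.mem_range] at hl
    have e1 : ∀ i : ℕ, (zeta N ^ j) ^ i * ((zeta N)⁻¹ ^ i) ^ l =
        (zeta N ^ j * ((zeta N)⁻¹) ^ l) ^ i := by
      intro i
      rw [mul_pow, ← pow_mul ((zeta N)⁻¹) i l, ← pow_mul ((zeta N)⁻¹) l i, mul_comm i l]
    simp only [e1]
    split_ifs with hlj
    · have e2 : zeta N ^ j * (zeta N)⁻¹ ^ l = 1 := by
        rw [inv_pow, zeta_pow_congr hN (show l ≡ j [MOD N] by rw [hlj]; exact Nat.mod_modEq j N)]
        exact mul_inv_cancel₀ (pow_ne_zero _ (hz.ne_zero hN))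
      simp only [e2, one_pow, Finset.sum_const, Finset.card_range, nsmul_eq_mul, mul_one]
    · have e2 : zeta N ^ j * (zeta N)⁻¹ ^ l ≠ 1 := by
        intro h1
        apply hlj
        rw [inv_pow, mul_inv_eq_one₀ (pow_ne_zero _ (hz.ne_zero hN)),
          zeta_pow_congr hN (Nat.mod_modEq j N).symm] at h1
        exact (hz.pow_inj (Nat.mod_lt _ (Nat.pos_of_ne_zero hN)) hl h1).symm
      have e3 : (zeta N ^ j * (zeta N)⁻¹ ^ l) ^ N = 1 := by
        rw [mul_pow, ← pow_mul, ← pow_mul, mul_comm j N, mul_comm l N, pow_mul, pow_mul, inv_pow,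
          hz.pow_eq_one, inv_one, one_pow, one_pow, one_mul]
      rw [geom_sum_eq e2, e3, sub_self, zero_div]
  have hxj : χ (x ^ j) = χ (x ^ (j % N)) := by
    congr 1
    conv_lhs => rw [← Nat.div_add_mod j N, pow_add, pow_mul, hx, one_pow, one_mul]
  rw [hxj]
  symm
  calc ∑ i ∈ Finset.range N, (N : ℂ)⁻¹ * (∑ l ∈ Finset.range N, ((zeta N)⁻¹ ^ i) ^ l *
        χ (x ^ l)) * (zeta N ^ j) ^ i
      = (N : ℂ)⁻¹ * ∑ l ∈ Finset.range N, (∑ i ∈ Finset.range N,
        (zeta N ^ j) ^ i * ((zeta N)⁻¹ ^ i) ^ l) * χ (x ^ l) := by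
        simp only [Finset.mul_sum, Finset.sum_mul]
        rw [Finset.sum_comm]
        refine Finset.sum_congr rfl fun l _ => Finset.sum_congr rfl fun i _ => ?_
        ring
    _ = (N : ℂ)⁻¹ * ∑ l ∈ Finset.range N, (if l = j % N then (N : ℂ) else 0) * χ (x ^ l) := by
        congr 1
        exact Finset.sum_congr rfl fun l hl => by rw [horth l hl]
    _ = χ (x ^ (j % N)) := by
        simp only [ite_mul, zero_mul]
        rw [Finset.sum_ite_eq', if_pos (Finset.mem_range.2 (Nat.mod_lt _ (Nat.pos_of_ne_zero hN))),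
          ← mul_assoc, inv_mul_cancel₀ hNC, one_mul]

/-- All values lie in `ℚ_{|G|}`. -/
theorem mem_cyc_card [Fintype G] {χ : G → ℂ} (h : IsCharacter χ) (g : G) :
    χ g ∈ cycField (Fintype.card G) := by
  obtain ⟨P, hP⟩ := h.eval_pow (N := Fintype.card G) Fintype.card_ne_zero
    (x := g) (pow_card_eq_one)
  have h1 := hP 1
  rw [pow_one, pow_one] at h1
  exact (mem_cyc Fintype.card_ne_zero).2 ⟨P, h1.symm⟩

/-- Galois conjugation: if the level is less than `b`, then `χ(x^(1+p^(b-1))) = χ(x)` for every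
`p`-element `x`. -/
theorem gal {χ : G → ℂ} (h : IsCharacter χ) {p : ℕ} [hp : Fact p.Prime] {n : ℕ} (hn : n ≠ 0)
    (hmem : ∀ g, χ g ∈ cycField n) {b : ℕ} (hb : 2 ≤ b) (hnb : n.factorization p < b) {x : G}
    {e : ℕ} (hx : x ^ (p ^ e) = 1) : χ (x ^ (1 + p ^ (b - 1))) = χ x := by
  obtain ⟨P, hP⟩ := h.eval_pow (pow_ne_zero e hp.out.ne_zero) hx
  have h1 := hP 1
  rw [pow_one, pow_one] at h1
  exact gal_core hn (hmem x) hb hnb h1 (hP _)

end IsCharacter

end Pool.Agent.Lib.MP_1aae89_al
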