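import Mathlib

/-!
# MP_1aae89_al: conductor, `p`-rationality level, induced class functions
-/

set_option autoImplicit false

namespace Pool.Agent.Lib.MP1aae89

/-- The cyclotomic field `ℚ_n = ℚ(e^{2πi/n})`. -/
noncomputable def Qn (n : ℕ) : IntermediateField ℚ ℂ :=
  IntermediateField.adjoin ℚ {Complex.exp (2 * Real.pi * Complex.I / n)}

/-- The conductor `c(χ)`: the least positive integer `n` such that all values of `χ` are in
`ℚ_n`. -/
noncomputable def conductor {G : Type*} (χ : G → ℂ) : ℕ :=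
  sInf {n : ℕ | 0 < n ∧ ∀ g, χ g ∈ Qn n}

/-- The `p`-rationality level `lev(χ) = ν_p(c(χ))`. -/
noncomputable def lev (p : ℕ) {G : Type*} (χ : G → ℂ) : ℕ := padicValNat p (conductor χ)

open scoped Classical in
/-- The induced function `ψ^G`: `ψ^G(g) = (1/|M|) ∑ ψ(x⁻¹ g x)`, the sum over the `x ∈ G` with
`x⁻¹ g x ∈ M`. -/
noncomputable def ind {G : Type*} [Group G] [Fintype G] (M : Subgroup G) (ψ : M → ℂ) (g : G) :
    ℂ :=
  (Nat.card M : ℂ)⁻¹ * ∑ x : G, if h : x⁻¹ * g * x ∈ M then ψ ⟨x⁻¹ * g * x, h⟩ else 0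

end Pool.Agent.Lib.MP1aae89
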