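import Mathlib

section
/-!
# Characters of finite groups: elementary facts

`IsChar χ`: `χ` is the character of a finite-dimensional complex representation.
-/
set_option autoImplicit false

open scoped ComplexConjugate

namespace Pool.Agent.Lib.MP1aae89

open Module

/-- `χ` is the character of a complex representation of finite degree. -/
def IsChar {H : Type*} [Group H] (χ : H → ℂ) : Prop :=
  ∃ (n : ℕ) (ρ : Representation ℂ H (Fin n → ℂ)), χ = ρ.character

section basic

variable {H : Type*} [Group H]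

/-- transport along a linear equivalence -/
theorem exists_fin {V : Type*} [AddCommGroup V] [Module ℂ V] [FiniteDimensional ℂ V]
    (ρ : Representation ℂ H V) :
    ∃ σ : Representation ℂ H (Fin (finrank ℂ V) → ℂ), ρ.character = σ.character := by
  let e : V ≃ₗ[ℂ] (Fin (finrank ℂ V) → ℂ) := (finBasis ℂ V).equivFun
  let σ : Representation ℂ H (Fin (finrank ℂ V) → ℂ) :=
    { toFun := fun h => e.toLinearMap ∘ₗ ρ h ∘ₗ e.symm.toLinearMap
      map_one' := by
        rw [map_one]
        refine LinearMap.ext fun x => ?_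
        simp
      map_mul' := fun g h => by
        rw [map_mul]
        refine LinearMap.ext fun x => ?_
        simp [Module.End.mul_apply] }
  refine ⟨σ, funext fun h => ?_⟩
  change LinearMap.trace ℂ V (ρ h) = LinearMap.trace ℂ _ (e.toLinearMap ∘ₗ ρ h ∘ₗ e.symm.toLinearMap)
  have h1 := LinearMap.trace_conj' (ρ h) e
  rw [← h1]
  rfl

theorem IsChar.of_rep {V : Type*} [AddCommGroup V] [Module ℂ V] [FiniteDimensional ℂ V]
    (ρ : Representation ℂ H V) : IsChar ρ.character :=
  ⟨_, exists_fin ρ⟩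

theorem IsChar.comp {H' : Type*} [Group H'] {χ : H → ℂ} (h : IsChar χ) (φ : H' →* H) :
    IsChar fun x => χ (φ x) := by
  obtain ⟨n, ρ, rfl⟩ := h
  exact ⟨n, ρ.comp φ, rfl⟩

theorem IsChar.lin (l : H →* ℂ) : IsChar fun h => l h := by
  let ρ : Representation ℂ H ℂ :=
    { toFun := fun h => l h • LinearMap.id
      map_one' := by
        rw [map_one, one_smul]
        rfl
      map_mul' := fun g h => by
        rw [map_mul]
        refine LinearMap.ext fun x => ?_
        simp only [LinearMap.smul_apply, LinearMap.id_apply, smul_eq_mul, Module.End.mul_apply]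
        ring }
  have h1 := IsChar.of_rep ρ
  have h2 : ρ.character = fun h => l h := by
    funext h
    change LinearMap.trace ℂ ℂ (l h • LinearMap.id) = l h
    rw [map_smul, LinearMap.trace_id]
    simp
  rwa [h2] at h1

theorem IsChar.mul {χ θ : H → ℂ} (hχ : IsChar χ) (hθ : IsChar θ) : IsChar fun h => χ h * θ h := by
  obtain ⟨n, ρ, rfl⟩ := hχ
  obtain ⟨m, σ, rfl⟩ := hθ
  have h1 := IsChar.of_rep (Representation.tprod ρ σ)
  rw [Representation.char_tensor] at h1
  exact h1

theorem IsChar.dual {χ : H → ℂ} (hχ : IsChar χ) : IsChar fun h => χ h⁻¹ := by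
  obtain ⟨n, ρ, rfl⟩ := hχ
  have h1 := IsChar.of_rep ρ.dual
  have h2 : ρ.dual.character = fun h => ρ.character h⁻¹ := funext fun h => ρ.char_dual h
  rwa [h2] at h1

/-- Galois twist -/
theorem IsChar.gal {χ : H → ℂ} (hχ : IsChar χ) (σ : ℂ →+* ℂ) : IsChar fun h => σ (χ h) := by
  obtain ⟨n, ρ, rfl⟩ := hχ
  let b := Pi.basisFun ℂ (Fin n)
  let A : H →* Matrix (Fin n) (Fin n) ℂ :=
    ((LinearMap.toMatrixAlgEquiv b : ((Fin n → ℂ) →ₗ[ℂ] (Fin n → ℂ)) ≃ₐ[ℂ] _) :
      ((Fin n → ℂ) →ₗ[ℂ] (Fin n → ℂ)) →* _).comp ρ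
  let A' : H →* Matrix (Fin n) (Fin n) ℂ := (σ.mapMatrix : Matrix (Fin n) (Fin n) ℂ →+* Matrix (Fin n) (Fin n) ℂ).toMonoidHom.comp A
  let ρ' : Representation ℂ H (Fin n → ℂ) :=
    ((Matrix.toLinAlgEquiv b : Matrix (Fin n) (Fin n) ℂ ≃ₐ[ℂ] _) :
      Matrix (Fin n) (Fin n) ℂ →* ((Fin n → ℂ) →ₗ[ℂ] (Fin n → ℂ))).comp A'
  refine ⟨n, ρ', funext fun h => ?_⟩
  change σ (LinearMap.trace ℂ _ (ρ h)) = LinearMap.trace ℂ _ (Matrix.toLin b b (A' h))
  rw [LinearMap.trace_eq_matrix_trace ℂ b (ρ h), LinearMap.trace_eq_matrix_trace ℂ b,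
    LinearMap.toMatrix_toLin]
  change σ (∑ i, LinearMap.toMatrix b b (ρ h) i i) = ∑ i, σ (LinearMap.toMatrix b b (ρ h) i i)
  rw [map_sum]

theorem IsChar.add {χ θ : H → ℂ} (hχ : IsChar χ) (hθ : IsChar θ) : IsChar fun h => χ h + θ h := by
  obtain ⟨n, ρ, rfl⟩ := hχ
  obtain ⟨m, σ, rfl⟩ := hθ
  have h1 := IsChar.of_rep (ρ.prod σ)
  have h2 : (ρ.prod σ).character = fun h => ρ.character h + σ.character h := by
    funext h
    exact LinearMap.trace_prodMap' (ρ h) (σ h)
  rwa [h2] at h1

theorem IsChar.one_nat {χ : H → ℂ} (hχ : IsChar χ) : ∃ n : ℕ, χ 1 = n := by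
  obtain ⟨n, ρ, rfl⟩ := hχ
  exact ⟨_, ρ.char_one⟩

theorem IsChar.conj_inv {χ : H → ℂ} (hχ : IsChar χ) (g h : H) : χ (h * g * h⁻¹) = χ g := by
  obtain ⟨n, ρ, rfl⟩ := hχ
  exact ρ.char_conj g h

variable [Fintype H]

theorem inv_card : Nonempty (Invertible (Nat.card H : ℂ)) :=
  ⟨invertibleOfNonzero (by
    have : 0 < Nat.card H := Nat.card_pos
    exact_mod_cast this.ne')⟩

theorem card_ne : (Nat.card H : ℂ) ≠ 0 := by
  have : 0 < Nat.card H := Nat.card_pos
  exact_mod_cast this.ne'

/-- the average of a character is a natural number -/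
theorem IsChar.avg {χ : H → ℂ} (hχ : IsChar χ) : ∃ m : ℕ, ∑ h, χ h = Nat.card H * m := by
  obtain ⟨n, ρ, rfl⟩ := hχ
  obtain ⟨_⟩ := inv_card (H := H)
  refine ⟨finrank ℂ ρ.invariants, ?_⟩
  rw [← ρ.card_inv_mul_sum_char_eq_finrank, mul_inv_cancel_left₀ card_ne]

/-- the inner product of two characters is a natural number -/
theorem IsChar.inner {χ θ : H → ℂ} (hχ : IsChar χ) (hθ : IsChar θ) :
    ∃ m : ℕ, ∑ h, χ h * θ h⁻¹ = Nat.card H * m :=
  (hχ.mul hθ.dual).avg

end basic

end Pool.Agent.Lib.MP1aae89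
end

section
/-!
# Characters of finite groups: projections, subrepresentations, norm one
-/
set_option autoImplicit false

open scoped ComplexConjugate

namespace Pool.Agent.Lib.MP1aae89

open Module

section proj

variable {H : Type*} [Group H] {V : Type*} [AddCommGroup V] [Module ℂ V] [FiniteDimensional ℂ V]

/-- the character of the range of a projection which commutes with the action -/
theorem IsChar.proj (ρ : Representation ℂ H V) (π : V →ₗ[ℂ] V) (hπ : π ∘ₗ π = π)
    (hc : ∀ h, ρ h ∘ₗ π = π ∘ₗ ρ h) : IsChar fun h => LinearMap.trace ℂ V (ρ h ∘ₗ π) := by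
  let K : Subrepresentation ρ :=
    { toSubmodule := LinearMap.range π
      apply_mem_toSubmodule := by
        rintro g v ⟨w, rfl⟩
        exact ⟨ρ g w, (LinearMap.congr_fun (hc g) w).symm⟩ }
  have h1 := IsChar.of_rep K.toRepresentation
  have h2 : K.toRepresentation.character = fun h => LinearMap.trace ℂ V (ρ h ∘ₗ π) := by
    funext h
    have h3 : ρ h ∘ₗ π = (LinearMap.range π).subtype ∘ₗ (K.toRepresentation h ∘ₗ π.rangeRestrict) := by
      refine LinearMap.ext fun x => ?_
      rfl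
    rw [h3, LinearMap.trace_comp_comm']
    change LinearMap.trace ℂ _ (K.toRepresentation h) = _
    congr 1
    refine LinearMap.ext fun x => ?_
    obtain ⟨x, y, rfl⟩ := x
    apply Subtype.ext
    change ρ h (π y) = ρ h (π (π y))
    rw [← LinearMap.comp_apply π π y, hπ]
  rwa [h2] at h1

variable [Finite H]

theorem split (ρ : Representation ℂ H V) (K : Subrepresentation ρ) :
    ∃ K' : Subrepresentation ρ, IsCompl K.toSubmodule K'.toSubmodule ∧
      ∀ h, ρ.character h = K.toRepresentation.character h + K'.toRepresentation.character h := by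
  have : NeZero (Nat.card H : ℂ) := ⟨by
    have : 0 < Nat.card H := Nat.card_pos
    exact_mod_cast this.ne'⟩
  have hs : Representation.IsSemisimpleRepresentation ρ := inferInstance
  obtain ⟨K', hK'⟩ := exists_isCompl K
  have hc : IsCompl K.toSubmodule K'.toSubmodule := by
    rw [isCompl_iff, disjoint_iff, codisjoint_iff] at hK' ⊢
    refine ⟨?_, ?_⟩
    · rw [← Subrepresentation.toSubmodule_inf, hK'.1]
      rfl
    · rw [← Subrepresentation.toSubmodule_sup, hK'.2]
      rfl
  refine ⟨K', hc, fun h => ?_⟩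
  let e : (K.toRepresentation.prod K'.toRepresentation).Equiv ρ :=
    Representation.Equiv.mk (Submodule.prodEquivOfIsCompl _ _ hc) (fun g => by
      refine LinearMap.ext fun x => ?_
      obtain ⟨x, y⟩ := x
      change ((ρ g x.1 : V) + ρ g y.1) = ρ g (x.1 + y.1)
      rw [map_add])
  rw [← Representation.char_iso e]
  exact LinearMap.trace_prodMap' _ _

end proj

section norm

variable {H : Type*} [Group H] [Fintype H]

theorem sum_swap (χ θ : H → ℂ) : ∑ h, χ h * θ h⁻¹ = ∑ h, θ h * χ h⁻¹ := by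
  rw [← Equiv.sum_comp (Equiv.inv H)]
  refine Finset.sum_congr rfl fun h _ => ?_
  simp [mul_comm]

theorem sum_char {V W : Type*} [AddCommGroup V] [Module ℂ V]
    [FiniteDimensional ℂ V] [AddCommGroup W] [Module ℂ W] [FiniteDimensional ℂ W]
    (ρ : Representation ℂ H V) (σ : Representation ℂ H W) :
    ∑ h, σ.character h * ρ.character h⁻¹ =
      Nat.card H * finrank ℂ (Representation.IntertwiningMap ρ σ) := by
  obtain ⟨_⟩ := inv_card (H := H)
  rw [← Representation.card_inv_mul_sum_char_mul_char_eq_finrank, mul_inv_cancel_left₀ card_ne]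

omit [Fintype H] in
theorem end_pos {V : Type*} [AddCommGroup V] [Module ℂ V] [FiniteDimensional ℂ V]
    (ρ : Representation ℂ H V) (h : finrank ℂ (Representation.IntertwiningMap ρ ρ) = 0) :
    finrank ℂ V = 0 := by
  have h1 : (Representation.IntertwiningMap.id ρ) = 0 := by
    have h2 := finrank_zero_iff.mp h
    exact Subsingleton.elim _ _
  rw [finrank_zero_iff]
  refine ⟨fun x y => ?_⟩
  have h3 : ∀ x : V, x = 0 := fun x => by
    have := congrArg (fun T : Representation.IntertwiningMap ρ ρ => T x) h1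
    simpa using this
  rw [h3 x, h3 y]

theorem norm_one_aux (N : ℕ) : ∀ (n m : ℕ) (ρ : Representation ℂ H (Fin n → ℂ))
    (σ : Representation ℂ H (Fin m → ℂ)), n + m ≤ N →
    ∑ h, (ρ.character h - σ.character h) * (ρ.character h⁻¹ - σ.character h⁻¹) = Nat.card H →
    ρ.character 1 ≠ σ.character 1 := by
  induction N with
  | zero =>
    intro n m ρ σ hnm h
    exfalso
    have hn : n = 0 := by omega
    have hm : m = 0 := by omega
    subst hn hm
    have h1 : ∀ h, ρ.character h = 0 := fun h => by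
      rw [Representation.character, Subsingleton.elim (ρ h) 0, map_zero]
    have h2 : ∀ h, σ.character h = 0 := fun h => by
      rw [Representation.character, Subsingleton.elim (σ h) 0, map_zero]
    simp only [h1, h2, sub_zero, mul_zero, Finset.sum_const_zero] at h
    exact card_ne h.symm
  | succ N ih =>
    intro n m ρ σ hnm h
    by_cases hT : ∃ T : Representation.IntertwiningMap ρ σ, T ≠ 0
    · obtain ⟨T, hT⟩ := hT
      obtain ⟨K', hK', hρ⟩ := split ρ T.ker
      obtain ⟨I', hI', hσ⟩ := split σ T.range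
      have hinj : Function.Injective (T.toLinearMap.domRestrict K'.toSubmodule) := by
        rw [← LinearMap.ker_eq_bot, LinearMap.ker_eq_bot']
        intro x hx
        have h1 : (x : Fin n → ℂ) ∈ T.ker.toSubmodule := hx
        have h2 : (x : Fin n → ℂ) ∈ T.ker.toSubmodule ⊓ K'.toSubmodule := ⟨h1, x.2⟩
        rw [hK'.inf_eq_bot] at h2
        exact Subtype.ext ((Submodule.mem_bot ℂ).mp h2)
      let R : K'.toSubmodule →ₗ[ℂ] T.range.toSubmodule :=
        (T.toLinearMap.domRestrict K'.toSubmodule).codRestrict T.range.toSubmodule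
          fun x => ⟨x, rfl⟩
      have hR : Function.Bijective R := by
        refine ⟨fun x y hxy => hinj (congrArg Subtype.val hxy), ?_⟩
        rintro ⟨w, v, rfl⟩
        have hv : v ∈ T.ker.toSubmodule ⊔ K'.toSubmodule := by
          rw [hK'.sup_eq_top]
          trivial
        obtain ⟨a, ha, b, hb, hab⟩ := Submodule.mem_sup.mp hv
        refine ⟨⟨b, hb⟩, Subtype.ext ?_⟩
        change T.toLinearMap b = T.toLinearMap v
        have ha' : T.toLinearMap a = 0 := ha
        rw [← hab, map_add, ha', zero_add]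
      have he : K'.toRepresentation.character = T.range.toRepresentation.character := by
        refine Representation.char_iso (Representation.Equiv.mk (LinearEquiv.ofBijective R hR)
          fun g => ?_)
        refine LinearMap.ext fun x => Subtype.ext ?_
        change T.toLinearMap (ρ g x) = σ g (T.toLinearMap x)
        exact Representation.IntertwiningMap.isIntertwining ρ σ T g x
      obtain ⟨ρ', hρ'⟩ := exists_fin T.ker.toRepresentation
      obtain ⟨σ', hσ'⟩ := exists_fin I'.toRepresentation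
      have hd : ∀ h, ρ.character h - σ.character h = ρ'.character h - σ'.character h := by
        intro h
        rw [hρ h, hσ h, he, hρ', hσ']
        ring
      have hdim : finrank ℂ T.ker.toSubmodule + finrank ℂ I'.toSubmodule ≤ N := by
        have h1 : finrank ℂ T.ker.toSubmodule ≤ n := by
          have := Submodule.finrank_le T.ker.toSubmodule
          simpa using this
        have h2 : 0 < finrank ℂ T.range.toSubmodule := by
          rw [Nat.pos_iff_ne_zero]
          intro h0
          have h3 : T.range.toSubmodule = ⊥ := Submodule.finrank_eq_zero.mp h0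
          apply hT
          refine Representation.IntertwiningMap.ext ?_
          exact LinearMap.range_eq_bot.mp h3
        have h3 := Submodule.finrank_add_eq_of_isCompl hI'
        simp only [finrank_fintype_fun_eq_card, Fintype.card_fin] at h3
        omega
      have h1 := ih _ _ ρ' σ' hdim (by
        rw [← h]
        exact Finset.sum_congr rfl fun g _ => by rw [hd g, hd g⁻¹])
      intro h2
      apply h1
      have h3 := hd 1
      rw [h2, sub_self] at h3
      exact (sub_eq_zero.mp h3.symm)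
    · push Not at hT
      have h0 : finrank ℂ (Representation.IntertwiningMap ρ σ) = 0 := by
        rw [finrank_zero_iff]
        exact ⟨fun a b => by rw [hT a, hT b]⟩
      have h1 := sum_char ρ σ
      rw [h0, Nat.cast_zero, mul_zero] at h1
      have h2 := h1
      rw [sum_swap] at h2
      have h3 : ∑ h, (ρ.character h - σ.character h) * (ρ.character h⁻¹ - σ.character h⁻¹) =
          ∑ h, ρ.character h * ρ.character h⁻¹ + ∑ h, σ.character h * σ.character h⁻¹ := by
        have h4 : ∑ h, (ρ.character h - σ.character h) * (ρ.character h⁻¹ - σ.character h⁻¹) =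
            (∑ h, ρ.character h * ρ.character h⁻¹ + ∑ h, σ.character h * σ.character h⁻¹) -
            (∑ h, ρ.character h * σ.character h⁻¹ + ∑ h, σ.character h * ρ.character h⁻¹) := by
          rw [← Finset.sum_add_distrib, ← Finset.sum_add_distrib, ← Finset.sum_sub_distrib]
          exact Finset.sum_congr rfl fun g _ => by ring
        rw [h4, h1, h2]
        ring
      rw [h3, sum_char ρ ρ, sum_char σ σ, ← mul_add] at h
      have h4 : (finrank ℂ (Representation.IntertwiningMap ρ ρ) : ℂ) +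
          finrank ℂ (Representation.IntertwiningMap σ σ) = 1 := by
        have := card_ne (H := H)
        field_simp at h
        exact_mod_cast h
      have h5 : finrank ℂ (Representation.IntertwiningMap ρ ρ) +
          finrank ℂ (Representation.IntertwiningMap σ σ) = 1 := by exact_mod_cast h4
      rw [Representation.char_one, Representation.char_one]
      intro h6
      have h6' : finrank ℂ (Fin n → ℂ) = finrank ℂ (Fin m → ℂ) := by exact_mod_cast h6
      have zz : ∀ {k : ℕ} (τ : Representation ℂ H (Fin k → ℂ)), finrank ℂ (Fin k → ℂ) = 0 →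
          finrank ℂ (Representation.IntertwiningMap τ τ) = 0 := by
        intro k τ hk
        have hs : Subsingleton (Fin k → ℂ) := finrank_zero_iff.mp hk
        rw [finrank_zero_iff]
        exact ⟨fun a b => Representation.IntertwiningMap.ext (LinearMap.ext fun x =>
          Subsingleton.elim _ _)⟩
      rcases Nat.eq_zero_or_pos (finrank ℂ (Representation.IntertwiningMap ρ ρ)) with h7 | h7
      · have h8 := end_pos ρ h7
        have h9 := zz σ (by rw [← h6', h8])
        omega
      · have h7' : finrank ℂ (Representation.IntertwiningMap σ σ) = 0 := by omega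
        have h8 := end_pos σ h7'
        have h9 := zz ρ (by rw [h6', h8])
        omega

/-- a difference of two characters with norm one does not vanish at `1` -/
theorem norm_one {χ θ : H → ℂ} (hχ : IsChar χ) (hθ : IsChar θ)
    (h : ∑ g, (χ g - θ g) * (χ g⁻¹ - θ g⁻¹) = Nat.card H) : χ 1 ≠ θ 1 := by
  obtain ⟨n, ρ, rfl⟩ := hχ
  obtain ⟨m, σ, rfl⟩ := hθ
  exact norm_one_aux (n + m) n m ρ σ le_rfl h

end norm

end Pool.Agent.Lib.MP1aae89
end

section
/-!
# Characters of finite groups: Fourier analysis along a cyclic subgroup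
-/
set_option autoImplicit false

open scoped ComplexConjugate

namespace Pool.Agent.Lib.MP1aae89

open Module

section powers

variable {H : Type*} [Group H]

/-- `u ^ i` for `i : ZMod N` (if `u ^ N = 1`) -/
def up {N : ℕ} (u : H) (i : ZMod N) : H := u ^ i.val

variable {N : ℕ} [NeZero N] {u : H}

omit [NeZero N] in
theorem pow_congr (hu : u ^ N = 1) {a b : ℕ} (h : (a : ZMod N) = b) : u ^ a = u ^ b := by
  rw [ZMod.natCast_eq_natCast_iff] at h
  have h1 := pow_mod_orderOf u a
  have h2 := pow_mod_orderOf u b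
  have h3 : a % orderOf u = b % orderOf u := h.of_dvd (orderOf_dvd_of_pow_eq_one hu)
  rw [← h1, ← h2, h3]

omit [NeZero N] in
theorem up_nat (hu : u ^ N = 1) (a : ℕ) : up u (a : ZMod N) = u ^ a :=
  pow_congr hu (by simp)

theorem up_add (hu : u ^ N = 1) (i j : ZMod N) : up u (i + j) = up u i * up u j := by
  unfold up
  rw [← pow_add]
  exact pow_congr hu (by simp)

omit [NeZero N] in
theorem up_zero : up u (0 : ZMod N) = 1 := by
  unfold up
  simp

theorem up_mul_nat (hu : u ^ N = 1) (i : ZMod N) (a : ℕ) : up u (i * (a : ZMod N)) = up u i ^ a := by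
  unfold up
  rw [← pow_mul]
  exact pow_congr hu (by simp)

/-- the homomorphism -/
def upHom (hu : u ^ N = 1) : Multiplicative (ZMod N) →* H where
  toFun i := up u (Multiplicative.toAdd i)
  map_one' := up_zero
  map_mul' _ _ := up_add hu _ _

end powers

section fourier

variable {N : ℕ} [NeZero N]

/-- the standard character of `ZMod N` -/
noncomputable abbrev e (j : ZMod N) : ℂ := ZMod.stdAddChar j

theorem e_add (i j : ZMod N) : e (i + j) = e i * e j := AddChar.map_add_eq_mul _ _ _

theorem e_zero : e (0 : ZMod N) = 1 := AddChar.map_zero_eq_one _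

theorem e_neg_mul (i : ZMod N) : e (-i) * e i = 1 := by
  rw [← e_add, neg_add_cancel, e_zero]

theorem sum_e (b : ZMod N) : ∑ x : ZMod N, e (x * b) = if b = 0 then (N : ℂ) else 0 := by
  have h := AddChar.sum_mulShift b (ZMod.isPrimitive_stdAddChar N)
  rw [h, ZMod.card]
  push_cast
  rfl

theorem e_nsmul (j : ZMod N) (a : ℕ) : e ((a : ZMod N) * j) = e j ^ a := by
  rw [← nsmul_eq_mul]
  exact AddChar.map_nsmul_eq_pow _ _ _

theorem e_pow_card (j : ZMod N) : e j ^ N = 1 := by
  rw [← e_nsmul]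
  simp

theorem N_ne : (N : ℂ) ≠ 0 := by
  exact_mod_cast NeZero.ne N

/-- Fourier coefficient -/
noncomputable def fc (F : ZMod N → ℂ) (j : ZMod N) : ℂ := (N : ℂ)⁻¹ * ∑ i, e (-(i * j)) * F i

/-- Fourier inversion -/
theorem inv_fc (F : ZMod N → ℂ) (i : ZMod N) : F i = ∑ j, e (i * j) * fc F j := by
  have h1 : ∑ j, e (i * j) * fc F j = (N : ℂ)⁻¹ * ∑ l, F l * ∑ j, e (j * (i - l)) := by
    simp only [fc, Finset.mul_sum]
    rw [Finset.sum_comm]
    refine Finset.sum_congr rfl fun l _ => Finset.sum_congr rfl fun j _ => ?_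
    have : j * (i - l) = i * j + -(l * j) := by ring
    rw [this, e_add]
    ring
  rw [h1]
  simp only [sum_e]
  have h2 : ∀ l : ZMod N, (F l * if i - l = 0 then (N : ℂ) else 0) =
      if l = i then F l * N else 0 := by
    intro l
    by_cases h : l = i
    · simp [h]
    · rw [if_neg h, if_neg (by rwa [sub_eq_zero, eq_comm]), mul_zero]
  rw [Finset.sum_congr rfl fun l _ => h2 l, Finset.sum_ite_eq' Finset.univ i]
  simp only [Finset.mem_univ, if_true]
  have := N_ne (N := N)
  field_simp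

theorem conj_e (j : ZMod N) : conj (e j) = e (-j) := by
  have h := ZMod.stdAddChar_apply j
  have h2 := ZMod.stdAddChar_apply (-j)
  change conj (ZMod.stdAddChar j) = ZMod.stdAddChar (-j)
  rw [h, h2, ← Circle.coe_inv_eq_conj, AddChar.map_neg_eq_inv]

end fourier

section char

variable {H : Type*} [Group H]

/-- the restriction of a character to a cyclic subgroup -/
theorem IsChar.cyclic {χ : H → ℂ} (hχ : IsChar χ) {N : ℕ} [NeZero N] {u : H} (hu : u ^ N = 1) :
    ∃ v : ZMod N → ℕ, ∀ i : ZMod N, χ (up u i) = ∑ j, v j * e (i * j) := by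
  have h1 : ∀ j : ZMod N, ∃ m : ℕ, fc (fun i => χ (up u i)) j = m := by
    intro j
    let l : Multiplicative (ZMod N) →* ℂ :=
      { toFun := fun i => e (-(Multiplicative.toAdd i * j))
        map_one' := by
          change e (-(0 * j)) = 1
          rw [zero_mul, neg_zero, e_zero]
        map_mul' := fun a b => by
          change e (-((Multiplicative.toAdd a + Multiplicative.toAdd b) * j)) = _
          rw [← e_add]
          congr 1
          ring }
    obtain ⟨m, hm⟩ := ((IsChar.lin l).mul (hχ.comp (upHom hu))).avg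
    refine ⟨m, ?_⟩
    have h2 : Nat.card (Multiplicative (ZMod N)) = N := by
      rw [Nat.card_eq_fintype_card, Fintype.card_multiplicative, ZMod.card]
    rw [h2] at hm
    have h3 : ∑ i : ZMod N, e (-(i * j)) * χ (up u i) = N * m := by
      rw [← hm]
      exact (Equiv.sum_comp Multiplicative.toAdd (fun i : ZMod N => e (-(i * j)) * χ (up u i))).symm
    rw [fc, h3, inv_mul_cancel_left₀ N_ne]
  choose v hv using h1
  refine ⟨v, fun i => ?_⟩
  have h2 := inv_fc (fun i => χ (up u i)) i
  rw [h2]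
  refine Finset.sum_congr rfl fun j _ => ?_
  rw [hv j, mul_comm]

theorem IsChar.conj' {χ : H → ℂ} (hχ : IsChar χ) [Finite H] (h : H) : χ h⁻¹ = conj (χ h) := by
  have : NeZero (orderOf h) := ⟨(orderOf_pos h).ne'⟩
  obtain ⟨v, hv⟩ := hχ.cyclic (pow_orderOf_eq_one h)
  have h1 : up h (1 : ZMod (orderOf h)) = h := by
    have := up_nat (N := orderOf h) (pow_orderOf_eq_one h) 1
    simpa using this
  have h2 : up h (-1 : ZMod (orderOf h)) = h⁻¹ := by
    have h3 := up_add (pow_orderOf_eq_one h) (-1 : ZMod (orderOf h)) 1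
    rw [neg_add_cancel, up_zero, h1] at h3
    exact eq_inv_of_mul_eq_one_left h3.symm
  have h3 := hv 1
  have h4 := hv (-1)
  rw [h1] at h3
  rw [h2] at h4
  rw [h3, h4, map_sum]
  refine Finset.sum_congr rfl fun j _ => ?_
  rw [map_mul, conj_e, map_natCast]
  congr 2
  ring

/-- the values of a character and field automorphisms -/
theorem IsChar.gal_pow {χ : H → ℂ} (hχ : IsChar χ) [Finite H] (h : H) (σ : ℂ →+* ℂ) (r : ℕ)
    (hσ : ∀ ξ : ℂ, ξ ^ orderOf h = 1 → σ ξ = ξ ^ r) : σ (χ h) = χ (h ^ r) := by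
  have : NeZero (orderOf h) := ⟨(orderOf_pos h).ne'⟩
  obtain ⟨v, hv⟩ := hχ.cyclic (pow_orderOf_eq_one h)
  have h1 : ∀ a : ℕ, up h (a : ZMod (orderOf h)) = h ^ a := fun a =>
    up_nat (N := orderOf h) (pow_orderOf_eq_one h) a
  have h2 := hv (r : ZMod (orderOf h))
  have h3 := hv ((1 : ℕ) : ZMod (orderOf h))
  rw [h1] at h2 h3
  rw [pow_one] at h3
  rw [h2, h3, map_sum]
  refine Finset.sum_congr rfl fun j _ => ?_
  rw [map_mul, map_natCast, Nat.cast_one, one_mul, hσ _ (e_pow_card j), e_nsmul]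

end char

end Pool.Agent.Lib.MP1aae89
end

section
/-!
# Fourier analysis on `ZMod (p ^ a)`
-/
set_option autoImplicit false

open scoped ComplexConjugate

namespace Pool.Agent.Lib.MP1aae89.LF

variable {N : ℕ} [NeZero N]

/-- data: `p`, `κ = p ^ (a - 1)`, `r = 1 + p ^ (b - 1) m` in `ZMod (p ^ a)` -/
structure Dat (N : ℕ) (p : ZMod N) (κ : ZMod N) (r : (ZMod N)ˣ) (b : ℕ) : Prop where
  b2 : 2 ≤ b
  pk : p * κ = 0
  kr : κ * r = κ
  rr : ∃ m : ZMod N, (r : ZMod N) = 1 + p ^ (b - 1) * m

/-- the differences -/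
def nn (v : ZMod N → ℂ) (r : (ZMod N)ˣ) (j : ZMod N) : ℂ := v j - v (j * (r⁻¹ : (ZMod N)ˣ))

/-- the frequencies of exact order `p ^ b` -/
def JJ (N : ℕ) [NeZero N] (p : ZMod N) (b : ℕ) : Finset (ZMod N) :=
  Finset.univ.filter fun j => p ^ b * j = 0 ∧ p ^ (b - 1) * j ≠ 0

variable {p κ : ZMod N} {r : (ZMod N)ˣ} {b : ℕ}

omit [NeZero N] in
theorem kr' (h : Dat N p κ r b) : κ * (r⁻¹ : (ZMod N)ˣ) = κ := by
  rw [Units.mul_inv_eq_iff_eq_mul, h.kr]

omit [NeZero N] in
theorem low (h : Dat N p κ r b) {j : ZMod N} (hj : p ^ (b - 1) * j = 0) :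
    j * (r⁻¹ : (ZMod N)ˣ) = j := by
  obtain ⟨m, hm⟩ := h.rr
  rw [Units.mul_inv_eq_iff_eq_mul, hm]
  have : j * (1 + p ^ (b - 1) * m) = j + (p ^ (b - 1) * j) * m := by ring
  rw [this, hj, zero_mul, add_zero]

/-- (c1) -/
theorem c1 (h : Dat N p κ r b) (v : ZMod N → ℂ) (hv : ∀ j, p ^ b * j ≠ 0 → v (j + κ) = v j)
    (i : ZMod N) (hi : κ * i ≠ 0) :
    ∑ j, e (i * j) * nn v r j = ∑ j ∈ JJ N p b, e (i * j) * nn v r j := by
  classical
  have h1 : ∀ j, p ^ (b - 1) * j = 0 → nn v r j = 0 := by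
    intro j hj
    rw [nn, low h hj, sub_self]
  have h2 : ∀ j, p ^ b * j ≠ 0 → nn v r (j + κ) = nn v r j := by
    intro j hj
    have h3 : (j + κ) * (r⁻¹ : (ZMod N)ˣ) = j * (r⁻¹ : (ZMod N)ˣ) + κ := by
      rw [add_mul, kr' h]
    have h4 : p ^ b * (j * (r⁻¹ : (ZMod N)ˣ)) ≠ 0 := by
      rw [← mul_assoc]
      intro h0
      exact hj ((Units.mul_left_eq_zero _).mp h0)
    rw [nn, nn, hv j hj, h3, hv _ h4]
  set B : Finset (ZMod N) := Finset.univ.filter fun j => p ^ b * j ≠ 0 with hB
  have hpk : ∀ n : ℕ, n ≠ 0 → p ^ n * κ = 0 := by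
    intro n hn
    obtain ⟨k, rfl⟩ := Nat.exists_eq_succ_of_ne_zero hn
    rw [pow_succ, mul_assoc, h.pk, mul_zero]
  have hb := h.b2
  have h3 : ∑ j ∈ B, e (i * j) * nn v r j = 0 := by
    have h4 : ∑ j ∈ B, e (i * j) * nn v r j =
        ∑ j ∈ B, e (i * (j + κ)) * nn v r (j + κ) := by
      refine (Finset.sum_bij (fun j _ => j + κ) ?_ ?_ ?_ ?_).symm
      · intro j hj
        simp only [hB, Finset.mem_filter, Finset.mem_univ, true_and] at hj ⊢
        rwa [mul_add, hpk b (by omega), add_zero]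
      · intro x _ y _ hxy
        exact add_right_cancel hxy
      · intro j hj
        refine ⟨j - κ, ?_, sub_add_cancel _ _⟩
        simp only [hB, Finset.mem_filter, Finset.mem_univ, true_and] at hj ⊢
        rwa [mul_sub, hpk b (by omega), sub_zero]
      · intro j _
        rfl
    have h5 : ∑ j ∈ B, e (i * (j + κ)) * nn v r (j + κ) =
        e (κ * i) * ∑ j ∈ B, e (i * j) * nn v r j := by
      rw [Finset.mul_sum]
      refine Finset.sum_congr rfl fun j hj => ?_
      simp only [hB, Finset.mem_filter, Finset.mem_univ, true_and] at hj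
      rw [h2 j hj, mul_add, e_add, mul_comm i κ]
      ring
    rw [h5] at h4
    have h6 : e (κ * i) ≠ 1 := by
      intro h6
      apply hi
      apply ZMod.injective_stdAddChar
      rw [AddChar.map_zero_eq_one]
      exact h6
    have h7 : (1 - e (κ * i)) * ∑ j ∈ B, e (i * j) * nn v r j = 0 := by
      linear_combination h4
    rcases mul_eq_zero.mp h7 with h8 | h8
    · exact absurd (sub_eq_zero.mp h8).symm h6
    · exact h8
  have h4 : ∑ j, e (i * j) * nn v r j = ∑ j ∈ B, e (i * j) * nn v r j +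
      ∑ j ∈ Finset.univ.filter (fun j => ¬ p ^ b * j ≠ 0), e (i * j) * nn v r j :=
    (Finset.sum_filter_add_sum_filter_not _ _ _).symm
  rw [h4, h3, zero_add]
  refine (Finset.sum_subset ?_ ?_).symm
  · intro j hj
    simp only [JJ, Finset.mem_filter, Finset.mem_univ, true_and] at hj
    simp [hj.1]
  · intro j hj hj'
    simp only [Finset.mem_filter, Finset.mem_univ, true_and, not_not] at hj
    simp only [JJ, Finset.mem_filter, Finset.mem_univ, true_and, not_and, not_not] at hj'
    rw [h1 j (hj' hj), mul_zero]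

/-- (c3) -/
theorem c3 (h : Dat N p κ r b) (v : ZMod N → ℂ) (j : ZMod N) (hj : p ^ b * j = 0) :
    ∑ x ∈ Finset.univ.filter (fun x => p * x = p * j), nn v r x = 0 := by
  classical
  have hb := h.b2
  set D : Finset (ZMod N) := Finset.univ.filter (fun x => p * x = p * j) with hD
  have h1 : ∑ x ∈ D, v (x * (r⁻¹ : (ZMod N)ˣ)) = ∑ x ∈ D, v x := by
    refine Finset.sum_bij (fun x _ => x * (r⁻¹ : (ZMod N)ˣ)) ?_ ?_ ?_ ?_
    · intro x hx
      simp only [hD, Finset.mem_filter, Finset.mem_univ, true_and] at hx ⊢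
      rw [← mul_assoc, hx]
      refine low h ?_
      rw [← mul_assoc, ← pow_succ, Nat.sub_add_cancel (by omega), hj]
    · intro x _ y _ hxy
      exact (Units.mul_left_inj _).mp hxy
    · intro x hx
      refine ⟨x * r, ?_, Units.mul_inv_cancel_right _ _⟩
      simp only [hD, Finset.mem_filter, Finset.mem_univ, true_and] at hx ⊢
      rw [← mul_assoc, hx]
      have h2 : p * j * (r⁻¹ : (ZMod N)ˣ) = p * j := by
        refine low h ?_
        rw [← mul_assoc, ← pow_succ, Nat.sub_add_cancel (by omega), hj]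
      rw [Units.mul_inv_eq_iff_eq_mul] at h2
      exact h2.symm
    · intro x _
      rfl
  simp only [nn, Finset.sum_sub_distrib]
  rw [h1, sub_self]

/-- (c2) -/
theorem c2 (h : Dat N p κ r b) (v : ZMod N → ℂ) (i : ZMod N) :
    ∑ j ∈ JJ N p b, e (p * i * j) * nn v r j = 0 := by
  classical
  have hb := h.b2
  rw [← Finset.sum_fiberwise (s := JJ N p b) (g := fun j => p * j)]
  refine Finset.sum_eq_zero fun y _ => ?_
  by_cases hy : ∃ j ∈ JJ N p b, p * j = y
  · obtain ⟨j, hj, rfl⟩ := hy
    have h1 : (JJ N p b).filter (fun x => p * x = p * j) =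
        Finset.univ.filter (fun x => p * x = p * j) := by
      ext x
      simp only [JJ, Finset.mem_filter, Finset.mem_univ, true_and] at hj ⊢
      constructor
      · exact fun hx => hx.2
      · intro hx
        refine ⟨⟨?_, ?_⟩, hx⟩
        · have : p ^ b = p ^ (b - 1) * p := by
            rw [← pow_succ, Nat.sub_add_cancel (by omega)]
          rw [this, mul_assoc, hx, ← mul_assoc, ← this, hj.1]
        · have : p ^ (b - 1) = p ^ (b - 2) * p := by
            rw [← pow_succ]
            congr 1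
            omega
          rw [this, mul_assoc, hx, ← mul_assoc, ← this]
          exact hj.2
    rw [h1]
    have h2 : ∀ x ∈ Finset.univ.filter (fun x => p * x = p * j),
        e (p * i * x) * nn v r x = e (i * (p * j)) * nn v r x := by
      intro x hx
      simp only [Finset.mem_filter, Finset.mem_univ, true_and] at hx
      have : p * i * x = i * (p * x) := by ring
      rw [this, hx]
    rw [Finset.sum_congr rfl h2, ← Finset.mul_sum, c3 h v j, mul_zero]
    simp only [JJ, Finset.mem_filter, Finset.mem_univ, true_and] at hj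
    exact hj.1
  · refine Finset.sum_eq_zero fun x hx => ?_
    rw [Finset.mem_filter] at hx
    exact absurd ⟨x, hx.1, hx.2⟩ hy

end Pool.Agent.Lib.MP1aae89.LF
end

section
/-!
# Components of characters under a central cyclic subgroup
-/
set_option autoImplicit false

open scoped ComplexConjugate

namespace Pool.Agent.Lib.MP1aae89

open Module

section norm

variable {H : Type*} [Group H] [Fintype H]

/-- the norm of a difference of two characters -/
theorem int_norm {α β : H → ℂ} (hα : IsChar α) (hβ : IsChar β) :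
    ∃ A : ℕ, ∑ y, ‖α y - β y‖ ^ 2 = Nat.card H * A ∧ (A = 0 → ∀ y, α y = β y) ∧
      (A = 1 → α 1 ≠ β 1) := by
  obtain ⟨m1, h1⟩ := hα.inner hα
  obtain ⟨m2, h2⟩ := hα.inner hβ
  obtain ⟨m3, h3⟩ := hβ.inner hα
  obtain ⟨m4, h4⟩ := hβ.inner hβ
  have h5 : ∑ y, (α y - β y) * (α y⁻¹ - β y⁻¹) = Nat.card H * (((m1 + m4 - m2 - m3 : ℤ)) : ℂ) := by
    have : ∑ y, (α y - β y) * (α y⁻¹ - β y⁻¹) = ∑ y, α y * α y⁻¹ - ∑ y, α y * β y⁻¹ -
        ∑ y, β y * α y⁻¹ + ∑ y, β y * β y⁻¹ := by
      rw [← Finset.sum_sub_distrib, ← Finset.sum_sub_distrib, ← Finset.sum_add_distrib]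
      exact Finset.sum_congr rfl fun y _ => by ring
    rw [this, h1, h2, h3, h4]
    push_cast
    ring
  have h6 : ∑ y, (α y - β y) * (α y⁻¹ - β y⁻¹) = ((∑ y, ‖α y - β y‖ ^ 2 : ℝ) : ℂ) := by
    push_cast
    refine Finset.sum_congr rfl fun y _ => ?_
    rw [hα.conj' y, hβ.conj' y, ← map_sub, Complex.mul_conj, Complex.normSq_eq_norm_sq]
    push_cast
    rfl
  have hc : (0 : ℝ) < Nat.card H := by exact_mod_cast Nat.card_pos
  have h7 : ∑ y, ‖α y - β y‖ ^ 2 = Nat.card H * ((m1 + m4 - m2 - m3 : ℤ) : ℝ) := by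
    rw [h6] at h5
    exact_mod_cast h5
  have h8 : (0 : ℤ) ≤ m1 + m4 - m2 - m3 := by
    have h9 : (0 : ℝ) ≤ Nat.card H * ((m1 + m4 - m2 - m3 : ℤ) : ℝ) := by
      rw [← h7]
      exact Finset.sum_nonneg fun _ _ => by positivity
    have h10 : (0 : ℝ) ≤ ((m1 + m4 - m2 - m3 : ℤ) : ℝ) := nonneg_of_mul_nonneg_right h9 hc
    exact_mod_cast h10
  obtain ⟨A, hA⟩ := Int.eq_ofNat_of_zero_le h8
  rw [hA] at h7 h5
  refine ⟨A, by exact_mod_cast h7, ?_, ?_⟩
  · rintro rfl y
    simp only [Int.cast_zero, mul_zero, CharP.cast_eq_zero] at h7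
    have := (Finset.sum_eq_zero_iff_of_nonneg fun y _ => by positivity).mp h7 y (Finset.mem_univ y)
    have h11 : ‖α y - β y‖ = 0 := by
      rcases pow_eq_zero_iff (two_ne_zero) |>.mp this with h
      exact h
    exact sub_eq_zero.mp (norm_eq_zero.mp h11)
  · rintro rfl
    refine norm_one hα hβ ?_
    rw [h5]
    simp

end norm

section comp

variable {H : Type*} [Group H] {N : ℕ} [NeZero N]

/-- the `j`-component of a function under translations by powers of `u` -/
noncomputable def cp (g : H → ℂ) (u : H) (j : ZMod N) (y : H) : ℂ := fc (fun i => g (up u i * y)) j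

theorem cp_shift (g : H → ℂ) {u : H} (hu : u ^ N = 1) (j l : ZMod N) (y : H) :
    cp g u j (up u l * y) = e (l * j) * cp g u j y := by
  unfold cp fc
  rw [← mul_assoc, mul_comm (e (l * j)), mul_assoc]
  congr 1
  rw [← Equiv.sum_comp (Equiv.subRight l), Finset.mul_sum]
  refine Finset.sum_congr rfl fun i _ => ?_
  change e (-((i - l) * j)) * g (up u (i - l) * (up u l * y)) =
    e (l * j) * (e (-(i * j)) * g (up u i * y))
  rw [← mul_assoc (up u (i - l)), ← up_add hu, sub_add_cancel, ← mul_assoc, ← e_add]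
  congr 2
  ring

theorem cp_sum (g : H → ℂ) (u : H) (i : ZMod N) (y : H) :
    g (up u i * y) = ∑ j, e (i * j) * cp g u j y :=
  inv_fc (fun i => g (up u i * y)) i

theorem cp_sub (g g' : H → ℂ) (u : H) (j : ZMod N) (y : H) :
    cp (fun x => g x - g' x) u j y = cp g u j y - cp g' u j y := by
  unfold cp fc
  rw [← mul_sub, ← Finset.sum_sub_distrib]
  congr 1
  exact Finset.sum_congr rfl fun i _ => by ring

/-- the components of a character are characters -/
theorem IsChar.cp {χ : H → ℂ} (hχ : IsChar χ) {u : H} (hu : u ^ N = 1) (hc : ∀ y, u * y = y * u)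
    (j : ZMod N) : IsChar (cp χ u j) := by
  obtain ⟨n, ρ, rfl⟩ := hχ
  have hc' : ∀ (i : ZMod N) (y : H), up u i * y = y * up u i := by
    intro i y
    unfold up
    exact ((show Commute u y from hc y).pow_left _).eq
  let π : Module.End ℂ (Fin n → ℂ) := (N : ℂ)⁻¹ • ∑ i : ZMod N, e (-(i * j)) • ρ (up u i)
  have h1 : ∀ h, ρ h * π = π * ρ h := by
    intro h
    simp only [π, mul_smul_comm, smul_mul_assoc, Finset.mul_sum, Finset.sum_mul]
    congr 1
    refine Finset.sum_congr rfl fun i _ => ?_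
    rw [← map_mul, ← map_mul, hc']
  have h2 : π * π = π := by
    have h3 : ∀ l : ZMod N, ρ (up u l) * π = e (l * j) • π := by
      intro l
      simp only [π, mul_smul_comm, Finset.mul_sum, Finset.smul_sum]
      rw [← Equiv.sum_comp (Equiv.subRight l)]
      refine Finset.sum_congr rfl fun i _ => ?_
      rw [Equiv.subRight_apply, ← map_mul, ← up_add hu, add_sub_cancel, smul_smul, smul_smul,
        smul_smul]
      have h4 : e (-((i - l) * j)) = e (l * j) * e (-(i * j)) := by
        rw [← e_add]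
        congr 1
        ring
      rw [h4]
      congr 1
      ring
    have h4 : π * π = (N : ℂ)⁻¹ • ∑ i : ZMod N, e (-(i * j)) • (ρ (up u i) * π) := by
      conv_lhs => rw [show π * π = ((N : ℂ)⁻¹ • ∑ i : ZMod N, e (-(i * j)) • ρ (up u i)) * π from rfl]
      simp only [smul_mul_assoc, Finset.sum_mul]
    rw [h4]
    have h5 : ∀ i : ZMod N, e (-(i * j)) • (ρ (up u i) * π) = π := by
      intro i
      rw [h3, smul_smul, e_neg_mul, one_smul]
    rw [Finset.sum_congr rfl fun i _ => h5 i, Finset.sum_const, Finset.card_univ, ZMod.card,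
      ← Nat.cast_smul_eq_nsmul ℂ, smul_smul, inv_mul_cancel₀ N_ne, one_smul]
  have h3 := IsChar.proj ρ π h2 h1
  have h4 : (fun h => LinearMap.trace ℂ (Fin n → ℂ) (ρ h ∘ₗ π)) =
      Pool.Agent.Lib.MP1aae89.cp ρ.character u j := by
    funext h
    change LinearMap.trace ℂ (Fin n → ℂ) (ρ h * π) = _
    have h5 : ρ h * π = (N : ℂ)⁻¹ • ∑ i : ZMod N, e (-(i * j)) • (ρ h * ρ (up u i)) := by
      simp only [π, mul_smul_comm, Finset.mul_sum]
    rw [h5, LinearMap.map_smul, _root_.map_sum (LinearMap.trace ℂ (Fin n → ℂ)), smul_eq_mul]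
    unfold Pool.Agent.Lib.MP1aae89.cp fc
    congr 1
    refine Finset.sum_congr rfl fun i _ => ?_
    rw [LinearMap.map_smul, smul_eq_mul, ← map_mul, ← hc']
    rfl
  rwa [h4] at h3

variable [Fintype H]

/-- orthogonality of the components -/
theorem cp_orth (g : H → ℂ) {u : H} (hu : u ^ N = 1) {j j' : ZMod N} (h : j ≠ j') :
    ∑ y, cp g u j y * conj (cp g u j' y) = 0 := by
  have h1 : ∑ y, cp g u j y * conj (cp g u j' y) =
      e (j - j') * ∑ y, cp g u j y * conj (cp g u j' y) := by
    conv_lhs => rw [← Equiv.sum_comp (Equiv.mulLeft (up u (1 : ZMod N)))]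
    rw [Finset.mul_sum]
    refine Finset.sum_congr rfl fun y _ => ?_
    rw [Equiv.coe_mulLeft, cp_shift g hu, cp_shift g hu, map_mul, conj_e, one_mul, one_mul,
      sub_eq_add_neg, e_add]
    ring
  have h2 : e (j - j') ≠ 1 := by
    intro h2
    apply h
    apply sub_eq_zero.mp
    apply ZMod.injective_stdAddChar
    rw [AddChar.map_zero_eq_one]
    exact h2
  have h3 : (1 - e (j - j')) * ∑ y, cp g u j y * conj (cp g u j' y) = 0 := by
    linear_combination h1
  rcases mul_eq_zero.mp h3 with h4 | h4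
  · exact absurd (sub_eq_zero.mp h4).symm h2
  · exact h4

/-- the norm of a sum of components -/
theorem cp_norm (g : H → ℂ) {u : H} (hu : u ^ N = 1) (J : Finset (ZMod N)) :
    ∑ y, ‖∑ j ∈ J, cp g u j y‖ ^ 2 = ∑ j ∈ J, ∑ y, ‖cp g u j y‖ ^ 2 := by
  classical
  have h1 : ((∑ y, ‖∑ j ∈ J, cp g u j y‖ ^ 2 : ℝ) : ℂ) =
      ((∑ j ∈ J, ∑ y, ‖cp g u j y‖ ^ 2 : ℝ) : ℂ) := by
    push_cast
    have h2 : ∀ y, ((‖∑ j ∈ J, cp g u j y‖ : ℝ) : ℂ) ^ 2 =
        ∑ j ∈ J, ∑ j' ∈ J, cp g u j y * conj (cp g u j' y) := by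
      intro y
      rw [← Complex.ofReal_pow, ← Complex.normSq_eq_norm_sq, ← Complex.mul_conj, map_sum,
        Finset.sum_mul_sum]
    rw [Finset.sum_congr rfl fun y _ => h2 y, Finset.sum_comm]
    refine Finset.sum_congr rfl fun j hj => ?_
    rw [Finset.sum_comm, Finset.sum_eq_single_of_mem j hj]
    · refine Finset.sum_congr rfl fun y _ => ?_
      rw [Complex.mul_conj, Complex.normSq_eq_norm_sq]
      push_cast
      rfl
    · intro j' _ hj'
      exact cp_orth g hu (Ne.symm hj')
  exact_mod_cast h1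

end comp

end Pool.Agent.Lib.MP1aae89
end

section
/-!
# Finite groups with cyclic Sylow `p`-subgroups
-/
set_option autoImplicit false
set_option linter.unusedSectionVars false

namespace Pool.Agent.Lib.MP1aae89

open Subgroup

/-- every `p`-subgroup is cyclic -/
def CP (p : ℕ) (H : Type*) [Group H] : Prop := ∀ S : Subgroup H, IsPGroup p S → IsCyclic S

/-- every `p`-subgroup is commutative -/
def CM (p : ℕ) (H : Type*) [Group H] : Prop :=
  ∀ S : Subgroup H, IsPGroup p S → ∀ x ∈ S, ∀ y ∈ S, x * y = y * x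

theorem CP.cm {p : ℕ} {H : Type*} [Group H] (h : CP p H) : CM p H := by
  intro S hS x hx y hy
  have h1 := h S hS
  have h2 : Std.Commutative (α := S) (· * ·) := (IsCyclic.isMulCommutative (α := S)).is_comm
  have h3 := h2.comm ⟨x, hx⟩ ⟨y, hy⟩
  simpa using congrArg Subtype.val h3

section basic

variable {H : Type*} [Group H] [Finite H]

theorem mem_zpowers_of_dvd {S : Subgroup H} (hS : IsCyclic S) {x u : H} (hx : x ∈ S) (hu : u ∈ S)
    (h : orderOf x ∣ orderOf u) : x ∈ zpowers u := by
  classical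
  have := Fintype.ofFinite H
  have := Fintype.ofFinite S
  set x' : S := ⟨x, hx⟩
  set u' : S := ⟨u, hu⟩
  have h1 := IsCyclic.card_pow_eq_one_le (α := S) (orderOf_pos u')
  set A : Finset S := Finset.univ.filter fun a : S => a ^ orderOf u' = 1
  set B : Finset S := Finset.univ.filter fun a : S => a ∈ zpowers u'
  have hBA : B ⊆ A := by
    intro a ha
    simp only [A, B, Finset.mem_filter, Finset.mem_univ, true_and] at ha ⊢
    obtain ⟨k, rfl⟩ := mem_zpowers_iff.mp ha
    rw [← zpow_natCast, zpow_comm, zpow_natCast, pow_orderOf_eq_one, one_zpow]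
  have hB : B.card = orderOf u' := by
    rw [← Nat.card_zpowers, Nat.card_eq_fintype_card, Fintype.card_subtype]
  have h2 : B = A := Finset.eq_of_subset_of_card_le hBA (by rw [hB]; exact h1)
  have h3 : x' ∈ A := by
    simp only [A, Finset.mem_filter, Finset.mem_univ, true_and]
    rw [← orderOf_dvd_iff_pow_eq_one]
    rw [← Subgroup.orderOf_coe, ← Subgroup.orderOf_coe]
    exact h
  rw [← h2] at h3
  simp only [B, Finset.mem_filter, Finset.mem_univ, true_and] at h3
  obtain ⟨k, hk⟩ := mem_zpowers_iff.mp h3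
  refine mem_zpowers_iff.mpr ⟨k, ?_⟩
  have := congrArg Subtype.val hk
  simpa using this

variable {p : ℕ} [hp : Fact p.Prime]

theorem pgroup_zpowers {x : H} {k : ℕ} (hx : x ^ p ^ k = 1) : IsPGroup p (zpowers x) := by
  rintro ⟨y, hy⟩
  obtain ⟨n, rfl⟩ := mem_zpowers_iff.mp hy
  refine ⟨k, Subtype.ext ?_⟩
  simp only [SubmonoidClass.mk_pow, OneMemClass.coe_one]
  rw [← zpow_natCast, zpow_comm, zpow_natCast, hx, one_zpow]

theorem pgroup_sup {x u : H} {k l : ℕ} (hx : x ^ p ^ k = 1) (hu : u ^ p ^ l = 1)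
    (hn : x⁻¹ * u * x ∈ zpowers u) : IsPGroup p (zpowers x ⊔ zpowers u : Subgroup H) := by
  refine IsPGroup.to_sup_of_normal_right' (pgroup_zpowers hx) (pgroup_zpowers hu) ?_
  rw [zpowers_le]
  have h1 : x⁻¹ ∈ normalizer (zpowers u : Set H) := by
    rw [Subgroup.mem_normalizer_iff_map_conj_eq, MonoidHom.map_zpowers]
    have h2 : ((MulAut.conj x⁻¹ : H ≃* H) : H →* H) u = x⁻¹ * u * x := by
      simp
    have h3 : zpowers (((MulAut.conj x⁻¹ : H ≃* H) : H →* H) u) ≤ zpowers u := by
      rw [h2, zpowers_le]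
      exact hn
    refine Subgroup.eq_of_le_of_card_ge h3 ?_
    rw [Nat.card_zpowers, Nat.card_zpowers]
    have h4 : orderOf (((MulAut.conj x⁻¹ : H ≃* H) : H →* H) u) = orderOf u :=
      orderOf_injective _ (MulAut.conj x⁻¹ : H ≃* H).injective u
    rw [h4]
  simpa using inv_mem h1

theorem comm_of_norm (h : CM p H) {x u : H} {k l : ℕ} (hx : x ^ p ^ k = 1) (hu : u ^ p ^ l = 1)
    (hn : x⁻¹ * u * x ∈ zpowers u) : x * u = u * x := by
  exact h _ (pgroup_sup hx hu hn) x
    ((le_sup_left : zpowers x ≤ zpowers x ⊔ zpowers u) (mem_zpowers x)) u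
    ((le_sup_right : zpowers u ≤ zpowers x ⊔ zpowers u) (mem_zpowers u))

theorem mem_of_comm (h : CP p H) {x u : H} {k l : ℕ} (hx : x ^ p ^ k = 1) (hu : u ^ p ^ l = 1)
    (hc : x * u = u * x) (hd : orderOf x ∣ orderOf u) : x ∈ zpowers u := by
  have hn : x⁻¹ * u * x ∈ zpowers u := by
    rw [mul_assoc, ← hc, inv_mul_cancel_left]
    exact mem_zpowers u
  exact mem_zpowers_of_dvd (h _ (pgroup_sup hx hu hn))
    ((le_sup_left : zpowers x ≤ zpowers x ⊔ zpowers u) (mem_zpowers x))
    ((le_sup_right : zpowers u ≤ zpowers x ⊔ zpowers u) (mem_zpowers u)) hd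

end basic

section up

variable {H : Type*} [Group H] [Finite H] {N : ℕ} [NeZero N] {u : H}

theorem up_mem (u : H) (i : ZMod N) : up u i ∈ zpowers u := by
  unfold up
  exact pow_mem (mem_zpowers u) _

theorem up_one (hu : u ^ N = 1) : up u (1 : ZMod N) = u := by
  have := up_nat (N := N) hu 1
  simpa using this

theorem up_mul (hu : u ^ N = 1) (i j : ZMod N) : up u (i * j) = up (up u i) j := by
  have h := up_mul_nat hu i j.val
  rw [ZMod.natCast_val, ZMod.cast_id] at h
  exact h

theorem up_pow (hu : u ^ N = 1) (i : ZMod N) (a : ℕ) : up u i ^ a = up u (i * (a : ZMod N)) :=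
  (up_mul_nat hu i a).symm

theorem up_N (hu : u ^ N = 1) (i : ZMod N) : up u i ^ N = 1 := by
  rw [up_pow hu, ZMod.natCast_self, mul_zero, up_zero]

theorem exists_up {x : H} (hu : u ^ N = 1) (hx : x ∈ zpowers u) : ∃ i : ZMod N, x = up u i := by
  classical
  have := Fintype.ofFinite H
  obtain ⟨k, hk⟩ := (mem_powers_iff_mem_zpowers.mpr hx)
  exact ⟨(k : ZMod N), by rw [up_nat hu]; exact hk.symm⟩

theorem up_inj (hu : orderOf u = N) {i j : ZMod N} (h : up u i = up u j) : i = j := by
  unfold up at h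
  have h1 := pow_inj_mod.mp h
  rw [hu, Nat.mod_eq_of_lt (ZMod.val_lt i), Nat.mod_eq_of_lt (ZMod.val_lt j)] at h1
  exact ZMod.val_injective N h1

theorem conj_up (g : H) (u : H) (i : ZMod N) : g⁻¹ * up u i * g = up (g⁻¹ * u * g) i := by
  unfold up
  have h := conj_pow (i := i.val) (a := g⁻¹) (b := u)
  rw [inv_inv] at h
  exact h.symm

/-- the exponents `s` with `g⁻¹ u g = u ^ s` for some `g` -/
noncomputable def SS (N : ℕ) [NeZero N] (u : H) : Finset (ZMod N) := by
  classical exact Finset.univ.filter fun s => ∃ g : H, g⁻¹ * u * g = up u s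

theorem mem_SS {s : ZMod N} : s ∈ SS N u ↔ ∃ g : H, g⁻¹ * u * g = up u s := by
  classical
  simp [SS]

theorem one_mem_SS (hu : u ^ N = 1) : (1 : ZMod N) ∈ SS N u :=
  mem_SS.mpr ⟨1, by rw [up_one hu]; simp⟩

theorem conj_mul {g h : H} {s t : ZMod N} (hu : u ^ N = 1) (hg : g⁻¹ * u * g = up u s)
    (hh : h⁻¹ * u * h = up u t) : (g * h)⁻¹ * u * (g * h) = up u (s * t) := by
  have h1 : (g * h)⁻¹ * u * (g * h) = h⁻¹ * (g⁻¹ * u * g) * h := by group
  rw [h1, hg, conj_up, hh, mul_comm, up_mul hu]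

theorem mul_mem_SS (hu : u ^ N = 1) {s t : ZMod N} (hs : s ∈ SS N u) (ht : t ∈ SS N u) :
    s * t ∈ SS N u := by
  obtain ⟨g, hg⟩ := mem_SS.mp hs
  obtain ⟨h, hh⟩ := mem_SS.mp ht
  exact mem_SS.mpr ⟨g * h, conj_mul hu hg hh⟩

theorem gcd_aux {n k : ℕ} (hn : 0 < n) (h : n / Nat.gcd n k = n) : Nat.gcd n k = 1 := by
  have h3 : Nat.gcd n k ∣ n := Nat.gcd_dvd_left _ _
  have h5 : Nat.gcd n k * (n / Nat.gcd n k) = n := Nat.mul_div_cancel' h3
  rw [h] at h5
  exact Nat.eq_of_mul_eq_mul_right hn (by rw [one_mul]; exact h5)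

theorem isUnit_of (hu : orderOf u = N) {g : H} {s : ZMod N} (hg : g⁻¹ * u * g = up u s) :
    IsUnit s := by
  have h1 : orderOf (up u s) = N := by
    rw [← hg, ← hu]
    have := orderOf_injective (MulAut.conj g⁻¹ : H ≃* H).toMonoidHom
      (MulAut.conj g⁻¹ : H ≃* H).injective u
    simpa [MulAut.conj_apply] using this
  unfold up at h1
  rw [orderOf_pow, hu] at h1
  have hN : 0 < N := Nat.pos_of_neZero N
  have h2 : Nat.gcd N s.val = 1 := gcd_aux hN h1
  have h3 : (s.val).Coprime N := by rw [Nat.coprime_comm]; exact h2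
  have h4 := (ZMod.unitOfCoprime s.val h3).isUnit
  rw [ZMod.coe_unitOfCoprime, ZMod.natCast_val, ZMod.cast_id] at h4
  exact h4

theorem conj_inv' (hu : orderOf u = N) {g : H} {s s' : ZMod N} (hg : g⁻¹ * u * g = up u s)
    (hs : s * s' = 1) : g * u * g⁻¹ = up u s' := by
  have hu' : u ^ N = 1 := by rw [← hu]; exact pow_orderOf_eq_one u
  set x : H := g * u * g⁻¹ with hx
  have h1 : g⁻¹ * x * g = u := by rw [hx]; group
  have hxN : x ^ N = 1 := by
    rw [hx, conj_pow, hu']
    group
  have h2 : up x s = u := by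
    have h3 : u = g * up u s * g⁻¹ := by rw [← hg]; group
    rw [h3, hx]
    have h4 := conj_up g⁻¹ u s
    rw [inv_inv] at h4
    rw [← h4]
  have h3 : up x (s * s') = up u s' := by rw [up_mul hxN, h2]
  rw [hs, up_one hxN] at h3
  exact h3

theorem inv_mem_SS (hu : orderOf u = N) {s s' : ZMod N} (h : s ∈ SS N u) (hs : s * s' = 1) :
    s' ∈ SS N u := by
  obtain ⟨g, hg⟩ := mem_SS.mp h
  refine mem_SS.mpr ⟨g⁻¹, ?_⟩
  rw [inv_inv]
  exact conj_inv' hu hg hs

end up

section free

variable {H : Type*} [Group H] [Finite H] {u : H}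

theorem unit_or {p a : ℕ} [hp : Fact p.Prime] [NeZero (p ^ a)] (x : ZMod (p ^ a)) :
    IsUnit x ∨ ∃ t, x = p * t := by
  by_cases h : p ∣ x.val
  · right
    obtain ⟨c, hc⟩ := h
    refine ⟨c, ?_⟩
    have h1 : ((x.val : ℕ) : ZMod (p ^ a)) = x := by rw [ZMod.natCast_val, ZMod.cast_id]
    rw [← h1, hc]
    push_cast
    rfl
  · left
    have h3 : (x.val).Coprime (p ^ a) := by
      refine Nat.Coprime.pow_right _ ?_
      rw [Nat.coprime_comm]
      exact (Nat.Prime.coprime_iff_not_dvd hp.out).mpr h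
    have h4 := (ZMod.unitOfCoprime x.val h3).isUnit
    rw [ZMod.coe_unitOfCoprime, ZMod.natCast_val, ZMod.cast_id] at h4
    exact h4

/-- the action of `N(⟨u⟩)/C(u)` is free modulo `p` -/
theorem free {p a b : ℕ} [hp : Fact p.Prime] [NeZero (p ^ a)] (hCP : CM p H)
    (hu : orderOf u = p ^ a) {s : ZMod (p ^ a)} (hs : s ∈ SS (p ^ a) u) (hb : 2 ≤ b)
    {j : ZMod (p ^ a)} (hj : (p : ZMod (p ^ a)) ^ (b - 1) * j ≠ 0)
    (h : (p : ZMod (p ^ a)) * (s * j) = p * j) : s = 1 := by
  have hu' : u ^ p ^ a = 1 := by rw [← hu]; exact pow_orderOf_eq_one u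
  obtain ⟨g, hg⟩ := mem_SS.mp hs
  have hpow : ∀ k : ℕ, (g ^ k)⁻¹ * u * g ^ k = up u (s ^ k) := by
    intro k
    induction k with
    | zero => rw [pow_zero, pow_zero, up_one hu']; simp
    | succ k ih => rw [pow_succ, pow_succ]; exact conj_mul hu' ih hg
  -- the `p'`-part
  set n := orderOf g with hn
  have hn0 : n ≠ 0 := (orderOf_pos g).ne'
  have h1 : (g ^ ordCompl[p] n) ^ p ^ (n.factorization p) = 1 := by
    rw [← pow_mul, mul_comm, Nat.ordProj_mul_ordCompl_eq_self]
    exact pow_orderOf_eq_one g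
  have h2 : g ^ ordCompl[p] n * u = u * g ^ ordCompl[p] n := by
    refine comm_of_norm hCP h1 hu' ?_
    rw [hpow]
    exact up_mem _ _
  have h3 : s ^ ordCompl[p] n = 1 := by
    apply up_inj hu
    rw [← hpow, up_one hu', mul_assoc, ← h2, inv_mul_cancel_left]
  -- `s` is congruent to `1`
  have h4 : ∃ t, s = 1 + p * t := by
    rcases unit_or (s - 1) with h5 | ⟨t, ht⟩
    · exfalso
      apply hj
      have h6 : (s - 1) * (p * j) = 0 := by linear_combination h
      have h7 : (p : ZMod (p ^ a)) * j = 0 := (h5.mul_right_eq_zero).mp h6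
      have h8 : (p : ZMod (p ^ a)) ^ (b - 1) = p ^ (b - 2) * p := by
        rw [← pow_succ]
        congr 1
        omega
      rw [h8, mul_assoc, h7, mul_zero]
    · exact ⟨t, by rw [← ht]; ring⟩
  obtain ⟨t, ht⟩ := h4
  have h5 : s ^ p ^ a = 1 := by
    have h6 : (p : ZMod (p ^ a)) ∣ s - 1 := ⟨t, by rw [ht]; ring⟩
    have h7 := dvd_sub_pow_of_dvd_sub h6 a
    rw [one_pow] at h7
    have h8 : (p : ZMod (p ^ a)) ^ (a + 1) = 0 := by
      rw [pow_succ]
      have : ((p : ZMod (p ^ a))) ^ a = 0 := by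
        have := ZMod.natCast_self (p ^ a)
        push_cast at this
        exact this
      rw [this, zero_mul]
    rw [h8, zero_dvd_iff, sub_eq_zero] at h7
    exact h7
  have h6 : orderOf s ∣ 1 := by
    have h7 : orderOf s ∣ ordCompl[p] n := orderOf_dvd_of_pow_eq_one h3
    have h8 : orderOf s ∣ p ^ a := orderOf_dvd_of_pow_eq_one h5
    have h9 : (ordCompl[p] n).Coprime (p ^ a) :=
      Nat.Coprime.pow_right _ (Nat.coprime_comm.mp (Nat.coprime_ordCompl hp.out hn0))
    rw [← h9.gcd_eq_one]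
    exact Nat.dvd_gcd h7 h8
  exact orderOf_eq_one_iff.mp (Nat.dvd_one.mp h6)

end free

end Pool.Agent.Lib.MP1aae89
end

section
/-!
# `p`-parts and double counting
-/
set_option autoImplicit false
set_option linter.unusedSectionVars false

namespace Pool.Agent.Lib.MP1aae89

open Subgroup

/-- exponents extracting `p`-parts -/
structure Pex (p L s0 : ℕ) : Prop where
  one : s0 ≡ 1 [MOD ordProj[p] L]
  zero : ordCompl[p] L ∣ s0

theorem exists_pex {p L : ℕ} (hp : p.Prime) (hL : L ≠ 0) : ∃ s0, Pex p L s0 := by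
  have hco : (ordProj[p] L).Coprime (ordCompl[p] L) :=
    Nat.Coprime.pow_left _ (Nat.coprime_ordCompl hp hL)
  have h := Nat.chineseRemainder hco 1 0
  exact ⟨h, h.2.1, (Nat.modEq_zero_iff_dvd).mp h.2.2⟩

section pp

variable {H : Type*} [Group H] {p L s0 : ℕ} (h : Pex p L s0)
include h

theorem pp_pow {y : H} (hy : y ^ L = 1) : (y ^ s0) ^ ordProj[p] L = 1 := by
  obtain ⟨c, hc⟩ := h.zero
  have h1 : s0 * ordProj[p] L = L * c := by
    conv_rhs => rw [← Nat.ordProj_mul_ordCompl_eq_self L p]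
    rw [hc]
    conv_lhs => rw [← hc]
    rw [hc]
    ring
  rw [← pow_mul, h1, pow_mul, hy, one_pow]

theorem pc_pow {y : H} (hy : y ^ L = 1) : ((y ^ s0)⁻¹ * y) ^ ordCompl[p] L = 1 := by
  have hc : Commute (y ^ s0)⁻¹ y := ((Commute.refl y).pow_left s0).inv_left
  rw [hc.mul_pow, inv_pow, ← pow_mul]
  have h1 : s0 * ordCompl[p] L ≡ 1 * ordCompl[p] L [MOD ordProj[p] L * ordCompl[p] L] :=
    h.one.mul_right' _
  rw [one_mul, Nat.ordProj_mul_ordCompl_eq_self] at h1
  have h2 : y ^ (s0 * ordCompl[p] L) = y ^ ordCompl[p] L :=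
    pow_eq_pow_iff_modEq.mpr (h1.of_dvd (orderOf_dvd_of_pow_eq_one hy))
  rw [h2, inv_mul_cancel]

theorem pp_of {q w : H} (hq : q ^ ordProj[p] L = 1) (hw : w ^ ordCompl[p] L = 1)
    (hc : Commute q w) : (q * w) ^ s0 = q := by
  have h1 : q ^ s0 = q := by
    have : q ^ s0 = q ^ 1 := pow_eq_pow_iff_modEq.mpr (h.one.of_dvd (orderOf_dvd_of_pow_eq_one hq))
    rw [this, pow_one]
  have h2 : w ^ s0 = 1 := by
    obtain ⟨c, hc⟩ := h.zero
    rw [hc, pow_mul, hw, one_pow]
  rw [hc.mul_pow, h1, h2, mul_one]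

theorem pp_dvd (hp : p.Prime) (hL : L ≠ 0) {y : H} (hy : y ^ L = 1) {b : ℕ} (hb : p ^ b ∣ orderOf y) :
    p ^ b ∣ orderOf (y ^ s0) := by
  have h1 := pc_pow h hy
  have hc : Commute (y ^ s0) ((y ^ s0)⁻¹ * y) := by
    have : Commute (y ^ s0) y := (Commute.refl y).pow_left s0
    exact ((Commute.refl (y ^ s0)).inv_right).mul_right this
  have h2 := hc.orderOf_mul_dvd_mul_orderOf
  rw [mul_inv_cancel_left] at h2
  have h3 : (p ^ b).Coprime (orderOf ((y ^ s0)⁻¹ * y)) := by
    refine Nat.Coprime.pow_left _ ?_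
    exact Nat.Coprime.coprime_dvd_right (orderOf_dvd_of_pow_eq_one h1) (Nat.coprime_ordCompl hp hL)
  exact h3.dvd_of_dvd_mul_right (hb.trans h2)

end pp

section dbl

variable {H : Type*} [Group H] [Fintype H]

open scoped Classical in
theorem dbl (X : H → Prop) (f : H → ℝ) (hf : ∀ g y, f (g * y * g⁻¹) = f y) (hf0 : ∀ y, 0 ≤ f y)
    (NN : Finset H) (hX : ∀ g g' z, X (g⁻¹ * z * g) → X (g'⁻¹ * z * g') → g⁻¹ * g' ∈ NN) :
    Fintype.card H * ∑ y ∈ Finset.univ.filter X, f y ≤ NN.card * ∑ y, f y := by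
  have h1 : (Fintype.card H : ℝ) * ∑ y ∈ Finset.univ.filter X, f y =
      ∑ z : H, (Finset.univ.filter fun g : H => X (g⁻¹ * z * g)).card * f z := by
    have h2 : ∀ g : H, ∑ y ∈ Finset.univ.filter X, f y =
        ∑ z : H, if X (g⁻¹ * z * g) then f z else 0 := by
      intro g
      rw [Finset.sum_filter]
      rw [← Equiv.sum_comp (MulAut.conj g⁻¹ : H ≃* H).toEquiv]
      refine Finset.sum_congr rfl fun z _ => ?_
      have h3 : (MulAut.conj g⁻¹ : H ≃* H).toEquiv z = g⁻¹ * z * g := by
        simp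
      rw [h3]
      have h4 : f (g⁻¹ * z * g) = f z := by
        have := hf g⁻¹ z
        rwa [inv_inv] at this
      rw [h4]
    have h3 : ∑ _g : H, ∑ y ∈ Finset.univ.filter X, f y =
        (Fintype.card H : ℝ) * ∑ y ∈ Finset.univ.filter X, f y := by
      rw [Finset.sum_const, Finset.card_univ, nsmul_eq_mul]
    rw [← h3, Finset.sum_congr rfl fun g _ => h2 g, Finset.sum_comm]
    refine Finset.sum_congr rfl fun z _ => ?_
    rw [← Finset.sum_filter, Finset.sum_const, nsmul_eq_mul]
  rw [h1, Finset.mul_sum]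
  refine Finset.sum_le_sum fun z _ => ?_
  refine mul_le_mul_of_nonneg_right ?_ (hf0 z)
  have h2 : (Finset.univ.filter fun g : H => X (g⁻¹ * z * g)).card ≤ NN.card := by
    by_cases hne : ∃ g0 : H, X (g0⁻¹ * z * g0)
    · obtain ⟨g0, hg0⟩ := hne
      refine Finset.card_le_card_of_injOn (fun g => g0⁻¹ * g) ?_ ?_
      · intro g hg
        simp only [Finset.coe_filter, Finset.mem_univ, true_and, Set.mem_setOf_eq] at hg
        exact hX g0 g z hg0 hg
      · intro g _ g' _ hgg
        exact mul_left_cancel hgg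
    · push Not at hne
      rw [Finset.filter_false_of_mem fun g _ => hne g]
      simp
  exact_mod_cast h2

variable {N : ℕ} [NeZero N] {u : H}

open scoped Classical in
theorem sum_NN {R : Type*} [AddCommMonoid R] (hu : orderOf u = N) (F : H → R) :
    ∑ g ∈ Finset.univ.filter (fun g : H => g⁻¹ * u * g ∈ zpowers u), F (g⁻¹ * u * g) =
      (Finset.univ.filter fun g : H => u * g = g * u).card • ∑ s ∈ SS N u, F (up u s) := by
  have hu' : u ^ N = 1 := by rw [← hu]; exact pow_orderOf_eq_one u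
  let σ : H → ZMod N := fun g => if h : ∃ s : ZMod N, g⁻¹ * u * g = up u s then h.choose else 0
  have hσ : ∀ g : H, g⁻¹ * u * g ∈ zpowers u → g⁻¹ * u * g = up u (σ g) := by
    intro g hg
    have h1 : ∃ s : ZMod N, g⁻¹ * u * g = up u s := exists_up hu' hg
    simp only [σ, dif_pos h1]
    exact h1.choose_spec
  rw [← Finset.sum_fiberwise_of_maps_to (t := SS N u) (g := σ), ← Finset.sum_nsmul]
  · refine Finset.sum_congr rfl fun s hs => ?_
    obtain ⟨g0, hg0⟩ := mem_SS.mp hs
    have h1 : ∀ g ∈ (Finset.univ.filter fun g : H => g⁻¹ * u * g ∈ zpowers u).filter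
        (fun g => σ g = s), F (g⁻¹ * u * g) = F (up u s) := by
      intro g hg
      simp only [Finset.mem_filter, Finset.mem_univ, true_and] at hg
      rw [hσ g hg.1, hg.2]
    rw [Finset.sum_congr rfl h1, Finset.sum_const]
    congr 1
    refine Finset.card_bij (fun g _ => g * g0⁻¹) ?_ ?_ ?_
    · intro g hg
      simp only [Finset.mem_filter, Finset.mem_univ, true_and] at hg ⊢
      have h2 : g⁻¹ * u * g = g0⁻¹ * u * g0 := by rw [hσ g hg.1, hg.2, hg0]
      have h3 : u * g = g * (g0⁻¹ * u * g0) := by rw [← h2]; group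
      rw [← mul_assoc, h3]
      group
    · intro g _ g' _ hgg
      exact mul_right_cancel hgg
    · intro c hc
      simp only [Finset.mem_filter, Finset.mem_univ, true_and] at hc
      refine ⟨c * g0, ?_, by group⟩
      have h2 : (c * g0)⁻¹ * u * (c * g0) = up u s := by
        have : (c * g0)⁻¹ * u * (c * g0) = g0⁻¹ * c⁻¹ * (u * c) * g0 := by group
        rw [this, hc, ← hg0]
        group
      simp only [Finset.mem_filter, Finset.mem_univ, true_and]
      have h3 : (c * g0)⁻¹ * u * (c * g0) ∈ zpowers u := by rw [h2]; exact up_mem u s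
      refine ⟨h3, ?_⟩
      have h4 := hσ _ h3
      rw [h2] at h4
      exact (up_inj hu h4).symm
  · intro g hg
    simp only [Finset.mem_filter, Finset.mem_univ, true_and] at hg
    exact mem_SS.mpr ⟨g, hσ g hg⟩

end dbl

end Pool.Agent.Lib.MP1aae89
end
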